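import Pool.Agent.N226.SX.Gen

/-!
# Logarithms and powers are regular to all orders
-/

set_option autoImplicit false

namespace Pool.Agent.N226.SX

open Finset Filter Topology

/-- The `r`-th difference of a function of a real variable. -/
def DR (r : ℕ) (F : ℝ → ℝ) (x : ℝ) : ℝ :=
  ∑ i ∈ range (r + 1), (-1 : ℝ) ^ i * (r.choose i : ℝ) * F (x + i)

theorem DR_eq (r : ℕ) (F : ℝ → ℝ) (x : ℝ) (n : ℕ) :
    D r (fun k : ℕ => F (x + k)) n = DR r F (x + n) := by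
  unfold D DR
  refine Finset.sum_congr rfl fun i _ => ?_
  simp only [Nat.cast_add, add_assoc]

theorem DR_succ (r : ℕ) (F : ℝ → ℝ) (x : ℝ) :
    DR (r + 1) F x = DR r F x - DR r F (x + 1) := by
  have h := D_succ r (fun k : ℕ => F (x + k)) 0
  rw [DR_eq, DR_eq, DR_eq] at h
  simpa using h

theorem pow_compare (e x c : ℝ) (hx : 1 ≤ x) (h1 : x ≤ c) (h2 : c ≤ x + 1) :
    c ^ e ≤ 2 ^ |e| * x ^ e := by
  have hxp : (0 : ℝ) < x := by linarith
  have h2' : (1 : ℝ) ≤ 2 ^ |e| := Real.one_le_rpow (by norm_num) (abs_nonneg _)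
  rcases le_total e 0 with he | he
  · calc c ^ e ≤ x ^ e := Real.rpow_le_rpow_of_nonpos hxp h1 he
      _ = 1 * x ^ e := (one_mul _).symm
      _ ≤ _ := mul_le_mul_of_nonneg_right h2' (by positivity)
  · calc c ^ e ≤ (2 * x) ^ e := Real.rpow_le_rpow (by linarith) (by linarith) he
      _ = 2 ^ |e| * x ^ e := by
          rw [Real.mul_rpow (by norm_num) hxp.le, abs_of_nonneg he]

theorem DR_step (r : ℕ) (F F' : ℝ → ℝ) (hF : ∀ y : ℝ, 0 < y → HasDerivAt F (F' y) y)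
    (e C : ℝ) (hC : 0 ≤ C) (hF' : ∀ y : ℝ, 1 ≤ y → |DR r F' y| ≤ C * y ^ (e - r)) (x : ℝ)
    (hx : 1 ≤ x) : |DR (r + 1) F x| ≤ C * 2 ^ |e - r| * x ^ (e - r) := by
  have hd : ∀ y : ℝ, 0 < y → HasDerivAt (fun y => DR r F y) (DR r F' y) y := by
    intro y hy
    unfold DR
    have : ∀ i ∈ range (r + 1), HasDerivAt (fun y : ℝ => (-1 : ℝ) ^ i * (r.choose i : ℝ) * F (y + i))
        ((-1 : ℝ) ^ i * (r.choose i : ℝ) * F' (y + i)) y := by
      intro i _
      have h1 := hF (y + i) (by positivity)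
      have h2 := HasDerivAt.comp_add_const y (i : ℝ) h1
      exact h2.const_mul _
    have h3 := HasDerivAt.fun_sum this
    simpa using h3
  obtain ⟨c, hc, hc2⟩ := exists_hasDerivAt_eq_slope (fun y => DR r F y) (fun y => DR r F' y)
    (show x < x + 1 by linarith)
    (fun y hy => (hd y (by linarith [hy.1])).continuousAt.continuousWithinAt)
    (fun y hy => hd y (by linarith [hy.1]))
  have h4 : DR (r + 1) F x = -(DR r F' c) := by
    rw [DR_succ, hc2]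
    field_simp
    ring
  rw [h4, abs_neg]
  calc |DR r F' c| ≤ C * c ^ (e - r) := hF' c (by linarith [hc.1])
    _ ≤ C * (2 ^ |e - r| * x ^ (e - r)) :=
        mul_le_mul_of_nonneg_left (pow_compare _ _ _ hx hc.1.le hc.2.le) hC
    _ = _ := by ring

theorem DR_smul (r : ℕ) (a : ℝ) (F : ℝ → ℝ) (x : ℝ) :
    DR r (fun y => a * F y) x = a * DR r F x := by
  unfold DR
  rw [Finset.mul_sum]
  exact Finset.sum_congr rfl fun i _ => by ring

theorem DR_rpow (r : ℕ) : ∀ s : ℝ, ∃ C : ℝ, 0 ≤ C ∧ ∀ x : ℝ, 1 ≤ x →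
    |DR r (fun y => y ^ s) x| ≤ C * x ^ (s - r) := by
  induction r with
  | zero =>
    intro s
    refine ⟨1, by norm_num, fun x hx => ?_⟩
    simp [DR, abs_of_nonneg (Real.rpow_nonneg (by linarith : (0 : ℝ) ≤ x) s)]
  | succ r ih =>
    intro s
    obtain ⟨C, hC, h⟩ := ih (s - 1)
    refine ⟨|s| * C * 2 ^ |(s - 1) - r|, by positivity, fun x hx => ?_⟩
    have := DR_step r (fun y => y ^ s) (fun y => s * y ^ (s - 1))
      (fun y hy => Real.hasDerivAt_rpow_const (Or.inl hy.ne')) (s - 1) (|s| * C) (by positivity)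
      (fun y hy => by
        rw [DR_smul, abs_mul, mul_assoc]
        exact mul_le_mul_of_nonneg_left (h y hy) (abs_nonneg _)) x hx
    refine this.trans (le_of_eq ?_)
    congr 2
    push_cast; ring

theorem DR_log (r : ℕ) : ∃ C : ℝ, 0 ≤ C ∧ ∀ x : ℝ, 1 ≤ x →
    |DR (r + 1) Real.log x| ≤ C * x ^ (-((r : ℝ) + 1)) := by
  obtain ⟨C, hC, h⟩ := DR_rpow r (-1)
  refine ⟨C * 2 ^ |(-1 : ℝ) - r|, by positivity, fun x hx => ?_⟩
  have := DR_step r Real.log (fun y => y ^ (-1 : ℝ))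
    (fun y hy => by rw [Real.rpow_neg_one]; exact Real.hasDerivAt_log hy.ne') (-1) C hC h x hx
  refine this.trans (le_of_eq ?_)
  congr 2
  ring

/-- The general term of an expansion at the lengths `2 k + ρ`. -/
noncomputable def G (q : ℕ) (β : ℝ) (c θ : Fin q → ℝ) (x : ℝ) : ℝ :=
  β * Real.log x + ∑ i, c i * x ^ (-(θ i))

theorem D_congr (r : ℕ) (f g : ℕ → ℝ) (n : ℕ) (h : ∀ i ≤ r, f (n + i) = g (n + i)) :
    D r f n = D r g n := by
  unfold D
  refine Finset.sum_congr rfl fun i hi => ?_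
  rw [h i (Nat.lt_succ_iff.mp (Finset.mem_range.mp hi))]

theorem D_add (r : ℕ) (h g : ℕ → ℝ) (n : ℕ) :
    D r (fun k => h k + g k) n = D r h n + D r g n := by
  unfold D
  rw [← Finset.sum_add_distrib]
  exact Finset.sum_congr rfl fun i _ => by ring

theorem D_smul (r : ℕ) (a : ℝ) (h : ℕ → ℝ) (n : ℕ) :
    D r (fun k => a * h k) n = a * D r h n := by
  unfold D
  rw [Finset.mul_sum]
  exact Finset.sum_congr rfl fun i _ => by ring

theorem D_sum (r : ℕ) {ι : Type} (S : Finset ι) (h : ι → ℕ → ℝ) (n : ℕ) :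
    D r (fun k => ∑ i ∈ S, h i k) n = ∑ i ∈ S, D r (h i) n := by
  unfold D
  rw [Finset.sum_comm]
  refine Finset.sum_congr rfl fun i _ => ?_
  rw [Finset.mul_sum]

theorem D_const (r : ℕ) (a : ℝ) (n : ℕ) : D (r + 1) (fun _ => a) n = 0 := by
  rw [D_succ]; unfold D; simp

theorem Bd.add {h g : ℕ → ℝ} {t : ℕ} {d : ℝ} (H1 : Bd h t d) (H2 : Bd g t d) :
    Bd (fun k => h k + g k) t d := by
  obtain ⟨C1, h1⟩ := H1
  obtain ⟨C2, h2⟩ := H2
  refine ⟨C1 + C2, ?_⟩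
  filter_upwards [h1, h2] with n a1 a2
  rw [D_add, add_mul]
  exact (abs_add_le _ _).trans (add_le_add a1 a2)

theorem Bd.smul {h : ℕ → ℝ} {t : ℕ} {d : ℝ} (a : ℝ) (H : Bd h t d) :
    Bd (fun k => a * h k) t d := by
  obtain ⟨C, h1⟩ := H
  refine ⟨|a| * C, ?_⟩
  filter_upwards [h1] with n a1
  rw [D_smul, abs_mul, mul_assoc]
  exact mul_le_mul_of_nonneg_left a1 (abs_nonneg _)

theorem Bd.sum {ι : Type} (S : Finset ι) {h : ι → ℕ → ℝ} {t : ℕ} {d : ℝ}
    (H : ∀ i ∈ S, Bd (h i) t d) : Bd (fun k => ∑ i ∈ S, h i k) t d := by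
  classical
  induction S using Finset.induction_on with
  | empty =>
    refine ⟨0, Filter.Eventually.of_forall fun n => ?_⟩
    rw [D_sum]; simp
  | insert a S ha ih =>
    have h1 := (H a (Finset.mem_insert_self _ _)).add
      (ih fun i hi => H i (Finset.mem_insert_of_mem hi))
    obtain ⟨C, hC⟩ := h1
    refine ⟨C, ?_⟩
    filter_upwards [hC] with n hn
    rwa [D_congr t (fun k => ∑ i ∈ insert a S, h i k) (fun k => h a k + ∑ i ∈ S, h i k) n
      (fun i _ => Finset.sum_insert ha)]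

theorem Bd.sub {h g : ℕ → ℝ} {t : ℕ} {d : ℝ} (H1 : Bd h t d) (H2 : Bd g t d) :
    Bd (fun k => h k - g k) t d := by
  obtain ⟨C1, h1⟩ := H1
  obtain ⟨C2, h2⟩ := H2
  refine ⟨C1 + C2, ?_⟩
  filter_upwards [h1, h2] with n a1 a2
  rw [D_sub, add_mul]
  exact (abs_sub _ _).trans (add_le_add a1 a2)

theorem Reg.sub {κ : ℝ} {h g : ℕ → ℝ} (H1 : Reg κ h) (H2 : Reg κ g) :
    Reg κ (fun k => h k - g k) := fun a h0 h1 r hr => (H1 a h0 h1 r hr).sub (H2 a h0 h1 r hr)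

theorem Reg.mono {κ κ' : ℝ} {h : ℕ → ℝ} (H : Reg κ h) (hk : κ' ≤ κ) : Reg κ' h :=
  fun a h0 h1 r hr => H a h0 (lt_of_lt_of_le h1 hk) r hr

/-- Expansions in powers and a logarithm are regular to all orders. -/
theorem bd_G (ρ q : ℕ) (β : ℝ) (c θ : Fin q → ℝ) (hθ : ∀ i, 0 ≤ θ i) (r : ℕ) (hr : 1 ≤ r) :
    Bd (fun k : ℕ => G q β c θ (2 * k + ρ)) r r := by
  obtain ⟨r, rfl⟩ : ∃ r', r = r' + 1 := ⟨r - 1, by omega⟩
  -- logarithm
  have hlog : Bd (fun k : ℕ => β * Real.log (2 * k + ρ)) (r + 1) ((r + 1 : ℕ) : ℝ) := by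
    refine Bd.smul β ?_
    obtain ⟨C, hC, h⟩ := DR_log r
    refine ⟨C, ?_⟩
    filter_upwards [eventually_ge_atTop 1] with n hn
    have hn1 : (1 : ℝ) ≤ n := by exact_mod_cast hn
    have e1 : D (r + 1) (fun k : ℕ => Real.log (2 * k + ρ)) n
        = D (r + 1) (fun k : ℕ => Real.log 2 + Real.log ((ρ : ℝ) / 2 + k)) n := by
      refine D_congr _ _ _ _ fun i _ => ?_
      rw [← Real.log_mul (by norm_num) (by positivity)]
      congr 1; ring
    rw [e1, D_add, D_const, zero_add, DR_eq]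
    have hx : (1 : ℝ) ≤ (ρ : ℝ) / 2 + n := by linarith [show (0 : ℝ) ≤ (ρ : ℝ) / 2 by positivity]
    calc |DR (r + 1) Real.log ((ρ : ℝ) / 2 + n)| ≤ C * ((ρ : ℝ) / 2 + n) ^ (-((r : ℝ) + 1)) :=
          h _ hx
      _ ≤ C * (n : ℝ) ^ (-((r : ℝ) + 1)) := by
          refine mul_le_mul_of_nonneg_left ?_ hC
          exact Real.rpow_le_rpow_of_nonpos (by linarith)
            (by linarith [show (0 : ℝ) ≤ (ρ : ℝ) / 2 by positivity]) (by linarith [show (0 : ℝ) ≤ r by positivity])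
      _ = _ := by push_cast; rfl
  have hpow : Bd (fun k : ℕ => ∑ i, c i * (2 * (k : ℝ) + ρ) ^ (-(θ i))) (r + 1)
      ((r + 1 : ℕ) : ℝ) := by
    refine Bd.sum Finset.univ fun i _ => Bd.smul (c i) ?_
    obtain ⟨C, hC, h⟩ := DR_rpow (r + 1) (-(θ i))
    refine ⟨2 ^ (-(θ i)) * C, ?_⟩
    filter_upwards [eventually_ge_atTop 1] with n hn
    have hn1 : (1 : ℝ) ≤ n := by exact_mod_cast hn
    have e1 : D (r + 1) (fun k : ℕ => (2 * (k : ℝ) + ρ) ^ (-(θ i))) n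
        = D (r + 1) (fun k : ℕ => 2 ^ (-(θ i)) * ((ρ : ℝ) / 2 + k) ^ (-(θ i))) n := by
      refine D_congr _ _ _ _ fun j _ => ?_
      rw [← Real.mul_rpow (by norm_num) (by positivity)]
      congr 1; ring
    rw [e1, D_smul, DR_eq r.succ (fun y => y ^ (-(θ i)))]
    have hx : (1 : ℝ) ≤ (ρ : ℝ) / 2 + n := by linarith [show (0 : ℝ) ≤ (ρ : ℝ) / 2 by positivity]
    rw [abs_mul, abs_of_nonneg (by positivity : (0 : ℝ) ≤ 2 ^ (-(θ i))), mul_assoc]
    refine mul_le_mul_of_nonneg_left ?_ (by positivity)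
    calc |DR (r + 1) (fun y => y ^ (-(θ i))) ((ρ : ℝ) / 2 + n)|
        ≤ C * ((ρ : ℝ) / 2 + n) ^ (-(θ i) - ((r + 1 : ℕ) : ℝ)) := h _ hx
      _ ≤ C * (n : ℝ) ^ (-((r + 1 : ℕ) : ℝ)) := by
          refine mul_le_mul_of_nonneg_left ?_ hC
          have hp : (0 : ℝ) ≤ ((r + 1 : ℕ) : ℝ) := by positivity
          calc ((ρ : ℝ) / 2 + n) ^ (-(θ i) - ((r + 1 : ℕ) : ℝ))
              ≤ ((ρ : ℝ) / 2 + n) ^ (-((r + 1 : ℕ) : ℝ)) :=
                Real.rpow_le_rpow_of_exponent_le hx (by linarith [hθ i])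
            _ ≤ _ := Real.rpow_le_rpow_of_nonpos (by linarith)
                (by linarith [show (0 : ℝ) ≤ (ρ : ℝ) / 2 by positivity]) (by linarith)
  exact hlog.add hpow

theorem reg_G (ρ q : ℕ) (β : ℝ) (c θ : Fin q → ℝ) (hθ : ∀ i, 0 ≤ θ i) :
    Reg 1 (fun k : ℕ => G q β c θ (2 * k + ρ)) := by
  intro a h0 h1 r hr
  refine (bd_G ρ q β c θ hθ r hr).mono ?_
  have : (0 : ℝ) ≤ r := by positivity
  nlinarith

end Pool.Agent.N226.SX
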