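import Pool.Agent.N226.SX.One

/-!
# The asymptotic form `P n ~ C n ^ β` along sparse lengths
-/

set_option autoImplicit false

namespace Pool.Agent.N226.SX

open Finset Filter Topology

/-- The expansion with one constant term. -/
theorem G_const (β a x : ℝ) : G 1 β (fun _ => a) (fun _ => 0) x = β * Real.log x + a := by
  unfold G
  simp

theorem form_to_log {X : Type*} {l : Filter X} {P x : X → ℝ} {β C : ℝ} (hC : 0 < C)
    (hP : ∀ᶠ n in l, 0 < P n) (hx : ∀ᶠ n in l, 0 < x n) :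
    Tendsto (fun n => P n / x n ^ β) l (𝓝 C) ↔
      Tendsto (fun n => Real.log (P n) - G 1 β (fun _ => Real.log C) (fun _ => 0) (x n)) l
        (𝓝 0) := by
  have e : ∀ᶠ n in l, Real.log (P n) - G 1 β (fun _ => Real.log C) (fun _ => 0) (x n) =
      Real.log (P n / x n ^ β) - Real.log C := by
    filter_upwards [hP, hx] with n h1 h2
    have h3 : 0 < x n ^ β := Real.rpow_pos_of_pos h2 _
    rw [G_const, Real.log_div h1.ne' h3.ne', Real.log_rpow h2]
    ring
  constructor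
  · intro h
    have h1 : Tendsto (fun n => Real.log (P n / x n ^ β) - Real.log C) l (𝓝 0) := by
      have := ((Real.continuousAt_log hC.ne').tendsto.comp h).sub_const (Real.log C)
      simpa using this
    exact h1.congr' (e.mono fun n hn => hn.symm)
  · intro h
    have h1 : Tendsto (fun n => Real.log (P n / x n ^ β) - Real.log C) l (𝓝 0) := h.congr' e
    have h2 : Tendsto (fun n => Real.exp (Real.log (P n / x n ^ β) - Real.log C) * C) l
        (𝓝 (Real.exp 0 * C)) := ((Real.continuous_exp.tendsto 0).comp h1).mul_const C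
    rw [Real.exp_zero, one_mul] at h2
    refine h2.congr' ?_
    filter_upwards [hP, hx] with n h3 h4
    have h5 : 0 < P n / x n ^ β := div_pos h3 (Real.rpow_pos_of_pos h4 _)
    rw [Real.exp_sub, Real.exp_log h5, Real.exp_log hC]
    field_simp

/-- The asymptotic form, step one. -/
theorem form_one {κ : ℝ} (hκ : κ ≤ 1) {P : ℕ → ℝ} (hP : ∀ᶠ n in atTop, 0 < P n)
    (hf : Reg κ (fun n => Real.log (P n)))
    (α : ℝ) (hα0 : 0 ≤ α) (hα : α < κ) (v : ℕ → ℕ) (hv : Tendsto v atTop atTop)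
    (hgap : ∀ᶠ j in atTop, (v (j + 1) : ℝ) ≤ v j + (v j : ℝ) ^ α)
    (β C : ℝ) (hC : 0 < C)
    (hval : Tendsto (fun j => P (v j) / (v j : ℝ) ^ β) atTop (𝓝 C)) :
    Tendsto (fun n : ℕ => P n / (n : ℝ) ^ β) atTop (𝓝 C) := by
  have hx : ∀ᶠ n : ℕ in atTop, (0 : ℝ) < n := by
    filter_upwards [eventually_ge_atTop 1] with n hn
    exact_mod_cast hn
  have h1 := (form_to_log (β := β) hC (hv.eventually hP) (hv.eventually hx)).mp hval
  have h2 := main_one_little hκ hf (reg_G1 κ hκ 1 β (fun _ => Real.log C) (fun _ => 0)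
    (fun _ => le_rfl)) 0 α le_rfl hα0 hα v hv hgap (by simpa using h1)
  exact (form_to_log hC hP hx).mpr (by simpa using h2)

/-- The asymptotic form, step two. -/
theorem form_two {κ : ℝ} (hκ : κ ≤ 1) {P : ℕ → ℝ} (hP : ∀ᶠ n in atTop, 0 < P n)
    (ρ : ℕ) (hf : Reg κ (fun k => Real.log (P (2 * k + ρ))))
    (α : ℝ) (hα0 : 0 ≤ α) (hα : α < κ) (v : ℕ → ℕ) (hv : Tendsto v atTop atTop)
    (hgap : ∀ᶠ j in atTop, (v (j + 1) : ℝ) ≤ v j + (v j : ℝ) ^ α)
    (β C : ℝ) (hC : 0 < C)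
    (hval : Tendsto (fun j => P (2 * v j + ρ) / (2 * (v j : ℝ) + ρ) ^ β) atTop (𝓝 C)) :
    Tendsto (fun k : ℕ => P (2 * k + ρ) / (2 * (k : ℝ) + ρ) ^ β) atTop (𝓝 C) := by
  have ht : Tendsto (fun k : ℕ => 2 * k + ρ) atTop atTop :=
    tendsto_atTop_mono (fun k => (by omega : k ≤ 2 * k + ρ)) tendsto_id
  have hP2 : ∀ᶠ k : ℕ in atTop, 0 < P (2 * k + ρ) := ht.eventually hP
  have hx2 : ∀ᶠ k : ℕ in atTop, 0 < 2 * (k : ℝ) + ρ := by
    filter_upwards [eventually_ge_atTop 1] with k hk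
    have : (1 : ℝ) ≤ k := by exact_mod_cast hk
    positivity
  have hP3 : ∀ᶠ j : ℕ in atTop, 0 < P (2 * v j + ρ) := hv.eventually hP2
  have hx3 : ∀ᶠ j : ℕ in atTop, 0 < 2 * (v j : ℝ) + ρ := hv.eventually hx2
  have h1 := (form_to_log (P := fun j => P (2 * v j + ρ)) (x := fun j => 2 * (v j : ℝ) + ρ)
    (β := β) hC hP3 hx3).mp hval
  have hR : Reg κ (fun k : ℕ => G 1 β (fun _ => Real.log C) (fun _ => 0) (2 * (k : ℝ) + ρ)) :=
    (reg_G ρ 1 β (fun _ => Real.log C) (fun _ => 0) (fun _ => le_rfl)).mono hκ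
  have h2 := sparse_little (M := 0) (hf.sub hR) hκ le_rfl hα0 hα v hv hgap (by
    simp only [Real.rpow_zero, one_mul]
    exact h1)
  simp only [Real.rpow_zero, one_mul] at h2
  exact (form_to_log (P := fun k => P (2 * k + ρ)) (x := fun k : ℕ => 2 * (k : ℝ) + ρ)
    hC hP2 hx2).mpr h2

end Pool.Agent.N226.SX
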