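import Mathlib

/-!
# Sequences which are regular to all orders: sparse values, expansions and differences

`D r h n = ∑_{i ≤ r} (-1)^i C(r, i) h (n + i)`. If `D r h n = O(n ^ (-a r))` for every `r ≥ 1`,
then a bound `h (u j) = O(u j ^ (-M))` along a sequence `u` with gaps at most `u ^ α`, `α < a`,
implies `D s h n = O(n ^ (-M - α s))` for all `s` and all `n`.
-/

set_option autoImplicit false

namespace Pool.Agent.N226.SX

open Finset Filter Topology

/-- The `r`-th difference. -/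
def D (r : ℕ) (h : ℕ → ℝ) (n : ℕ) : ℝ :=
  ∑ i ∈ range (r + 1), (-1 : ℝ) ^ i * (r.choose i : ℝ) * h (n + i)

theorem D_zero (h : ℕ → ℝ) (n : ℕ) : D 0 h n = h n := by simp [D]

theorem D_succ (r : ℕ) (h : ℕ → ℝ) (n : ℕ) :
    D (r + 1) h n = D r h n - D r h (n + 1) := by
  unfold D
  rw [Finset.sum_range_succ' _ (r + 1)]
  rw [Finset.sum_range_succ' (fun i => (-1 : ℝ) ^ i * (r.choose i : ℝ) * h (n + i)) r]
  have h1 : ∀ i ∈ range (r + 1), (-1 : ℝ) ^ (i + 1) * ((r + 1).choose (i + 1) : ℝ) * h (n + (i + 1))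
      = (-1 : ℝ) ^ (i + 1) * (r.choose (i + 1) : ℝ) * h (n + (i + 1))
        - (-1 : ℝ) ^ i * (r.choose i : ℝ) * h (n + 1 + i) := by
    intro i _
    rw [Nat.choose_succ_succ' r i]
    push_cast
    rw [show n + 1 + i = n + (i + 1) by ring]
    ring
  rw [Finset.sum_congr rfl h1, Finset.sum_sub_distrib]
  rw [Finset.sum_range_succ (fun i => (-1 : ℝ) ^ (i + 1) * (r.choose (i + 1) : ℝ) * h (n + (i + 1)))]
  simp
  ring

theorem D_succ' (r : ℕ) (h : ℕ → ℝ) (n : ℕ) :
    D (r + 1) h n = D r (fun k => h k - h (k + 1)) n := by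
  rw [D_succ]
  unfold D
  rw [← Finset.sum_sub_distrib]
  refine Finset.sum_congr rfl fun i _ => ?_
  rw [show n + 1 + i = n + i + 1 by ring]
  ring

theorem D_sub (r : ℕ) (h g : ℕ → ℝ) (n : ℕ) :
    D r (fun k => h k - g k) n = D r h n - D r g n := by
  unfold D
  rw [← Finset.sum_sub_distrib]
  exact Finset.sum_congr rfl fun i _ => by ring

/-- The `s`-th difference with step `m`. -/
def T (m : ℕ) : ℕ → (ℕ → ℝ) → ℕ → ℝ
  | 0, h => h
  | s + 1, h => T m s (fun n => h n - h (n + m))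

theorem T_bound (m : ℕ) (η : ℝ) : ∀ (s : ℕ) (h : ℕ → ℝ) (n : ℕ),
    (∀ i ≤ s * m, |h (n + i)| ≤ η) → |T m s h n| ≤ 2 ^ s * η := by
  intro s
  induction s generalizing η with
  | zero => intro h n hb; simpa [T] using hb 0 (by simp)
  | succ s ih =>
    intro h n hb
    have := ih (2 * η) (fun n => h n - h (n + m)) n (by
      intro i hi
      have h1 := hb i (by nlinarith [hi, Nat.zero_le m])
      have h2 := hb (i + m) (by rw [Nat.add_mul, one_mul]; omega)
      rw [← add_assoc] at h2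
      calc |h (n + i) - h (n + i + m)| ≤ |h (n + i)| + |h (n + i + m)| := abs_sub _ _
        _ ≤ 2 * η := by linarith)
    calc |T m (s + 1) h n| = |T m s (fun n => h n - h (n + m)) n| := rfl
      _ ≤ 2 ^ s * (2 * η) := this
      _ = 2 ^ (s + 1) * η := by ring

theorem T_sum (m : ℕ) : ∀ (s : ℕ) (k : ℕ) (g : ℕ → ℕ → ℝ) (n : ℕ),
    T m s (fun n => ∑ i ∈ range k, g i n) n = ∑ i ∈ range k, T m s (g i) n := by
  intro s
  induction s with
  | zero => intro k g n; rfl
  | succ s ih =>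
    intro k g n
    have : (fun n => (∑ i ∈ range k, g i n) - ∑ i ∈ range k, g i (n + m))
        = fun n => ∑ i ∈ range k, (fun n => g i n - g i (n + m)) n := by
      funext n; rw [← Finset.sum_sub_distrib]
    show T m s (fun n => (∑ i ∈ range k, g i n) - ∑ i ∈ range k, g i (n + m)) n = _
    rw [this, ih k (fun i n => g i n - g i (n + m)) n]
    rfl

theorem T_shift (m : ℕ) : ∀ (s i : ℕ) (g : ℕ → ℝ) (n : ℕ),
    T m s (fun n => g (n + i)) n = T m s g (n + i) := by
  intro s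
  induction s with
  | zero => intro i g n; rfl
  | succ s ih =>
    intro i g n
    have : (fun n => g (n + i) - g (n + m + i)) = fun n => (fun n => g n - g (n + m)) (n + i) := by
      funext n; simp only; rw [show n + m + i = n + i + m by ring]
    show T m s (fun n => g (n + i) - g (n + m + i)) n = _
    rw [this, ih i (fun n => g n - g (n + m)) n]
    rfl

/-- The difference with step `m` against the difference with step one. -/
theorem T_near (m : ℕ) (δ : ℝ) (hδ : 0 ≤ δ) : ∀ (s : ℕ) (h : ℕ → ℝ) (n : ℕ),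
    (∀ i ≤ s * m, |D (s + 1) h (n + i)| ≤ δ) →
      |T m s h n - (m : ℝ) ^ s * D s h n| ≤ s * (m : ℝ) ^ (s + 1) * δ := by
  intro s
  induction s with
  | zero => intro h n _; simp [T, D_zero]
  | succ s ih =>
    intro h n hb
    set g : ℕ → ℝ := fun k => h k - h (k + 1) with hg
    have hT : T m (s + 1) h n = ∑ i ∈ range m, T m s g (n + i) := by
      have h1 : (fun n => h n - h (n + m)) = fun n => ∑ i ∈ range m, (fun n => g (n + i)) n := by
        funext n
        have := Finset.sum_range_sub' (fun i => h (n + i)) m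
        simp only [add_zero] at this
        rw [← this]
        refine Finset.sum_congr rfl fun i _ => ?_
        simp only [hg]
        rw [show n + (i + 1) = n + i + 1 by ring]
      show T m s (fun n => h n - h (n + m)) n = _
      rw [h1, T_sum m s m (fun i n => g (n + i)) n]
      exact Finset.sum_congr rfl fun i _ => T_shift m s i g n
    have hDg : ∀ r k, D r g k = D (r + 1) h k := fun r k => (D_succ' r h k).symm
    have h1 : ∀ i ∈ range m, |T m s g (n + i) - (m : ℝ) ^ s * D (s + 1) h n|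
        ≤ s * (m : ℝ) ^ (s + 1) * δ + (m : ℝ) ^ s * (m * δ) := by
      intro i hi
      have hi' : i < m := Finset.mem_range.mp hi
      have h2 := ih g (n + i) (by
        intro j hj
        rw [hDg]
        have h8 := hb (i + j) (by rw [Nat.add_mul, one_mul]; omega)
        rwa [← add_assoc] at h8)
      rw [hDg] at h2
      have h3 : |D (s + 1) h (n + i) - D (s + 1) h n| ≤ m * δ := by
        have h4 : ∀ k ≤ m, |D (s + 1) h (n + k) - D (s + 1) h n| ≤ k * δ := by
          intro k hk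
          induction k with
          | zero => simp
          | succ k ihk =>
            have h5 := ihk (by omega)
            have h6 := hb k (by rw [Nat.add_mul, one_mul]; omega)
            rw [D_succ] at h6
            calc |D (s + 1) h (n + (k + 1)) - D (s + 1) h n|
                = |(D (s + 1) h (n + k) - D (s + 1) h n)
                    - (D (s + 1) h (n + k) - D (s + 1) h (n + k + 1))| := by
                  congr 1; rw [show n + (k + 1) = n + k + 1 by ring]; ring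
              _ ≤ |D (s + 1) h (n + k) - D (s + 1) h n|
                    + |D (s + 1) h (n + k) - D (s + 1) h (n + k + 1)| := abs_sub _ _
              _ ≤ k * δ + δ := by linarith
              _ = ((k + 1 : ℕ) : ℝ) * δ := by push_cast; ring
        refine (h4 i hi'.le).trans ?_
        exact mul_le_mul_of_nonneg_right (by exact_mod_cast hi'.le) hδ
      calc |T m s g (n + i) - (m : ℝ) ^ s * D (s + 1) h n|
          = |(T m s g (n + i) - (m : ℝ) ^ s * D (s + 1) h (n + i))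
              + (m : ℝ) ^ s * (D (s + 1) h (n + i) - D (s + 1) h n)| := by congr 1; ring
        _ ≤ |T m s g (n + i) - (m : ℝ) ^ s * D (s + 1) h (n + i)|
              + |(m : ℝ) ^ s * (D (s + 1) h (n + i) - D (s + 1) h n)| := abs_add_le _ _
        _ ≤ s * (m : ℝ) ^ (s + 1) * δ + (m : ℝ) ^ s * (m * δ) := by
            refine add_le_add h2 ?_
            rw [abs_mul, abs_of_nonneg (by positivity : (0 : ℝ) ≤ (m : ℝ) ^ s)]
            exact mul_le_mul_of_nonneg_left h3 (by positivity)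
    rw [hT]
    have h7 : ∑ i ∈ range m, T m s g (n + i) - (m : ℝ) ^ (s + 1) * D (s + 1) h n
        = ∑ i ∈ range m, (T m s g (n + i) - (m : ℝ) ^ s * D (s + 1) h n) := by
      rw [Finset.sum_sub_distrib, Finset.sum_const, Finset.card_range, nsmul_eq_mul]
      ring
    rw [h7]
    calc |∑ i ∈ range m, (T m s g (n + i) - (m : ℝ) ^ s * D (s + 1) h n)|
        ≤ ∑ i ∈ range m, |T m s g (n + i) - (m : ℝ) ^ s * D (s + 1) h n| :=
          Finset.abs_sum_le_sum_abs _ _
      _ ≤ ∑ i ∈ range m, (s * (m : ℝ) ^ (s + 1) * δ + (m : ℝ) ^ s * (m * δ)) :=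
          Finset.sum_le_sum h1
      _ = ((s + 1 : ℕ) : ℝ) * (m : ℝ) ^ (s + 1 + 1) * δ := by
          rw [Finset.sum_const, Finset.card_range, nsmul_eq_mul]; push_cast; ring

/-- A discrete Landau inequality. -/
theorem landau (m : ℕ) (s : ℕ) (h : ℕ → ℝ) (n : ℕ) (η δ : ℝ) (hδ : 0 ≤ δ)
    (h0 : ∀ i ≤ s * m, |h (n + i)| ≤ η) (h1 : ∀ i ≤ s * m, |D (s + 1) h (n + i)| ≤ δ) :
    (m : ℝ) ^ s * |D s h n| ≤ 2 ^ s * η + s * (m : ℝ) ^ (s + 1) * δ := by
  have a1 := T_bound m η s h n h0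
  have a2 := T_near m δ hδ s h n h1
  have a3 : (m : ℝ) ^ s * |D s h n| = |(m : ℝ) ^ s * D s h n| := by
    rw [abs_mul, abs_of_nonneg (by positivity : (0 : ℝ) ≤ (m : ℝ) ^ s)]
  rw [a3]
  calc |(m : ℝ) ^ s * D s h n| = |T m s h n - (T m s h n - (m : ℝ) ^ s * D s h n)| := by
        congr 1; ring
    _ ≤ |T m s h n| + |T m s h n - (m : ℝ) ^ s * D s h n| := abs_sub _ _
    _ ≤ _ := add_le_add a1 a2

/-- `D t h n = O(n ^ (-d))`. -/
def Bd (h : ℕ → ℝ) (t : ℕ) (d : ℝ) : Prop :=
  ∃ C : ℝ, ∀ᶠ n : ℕ in atTop, |D t h n| ≤ C * (n : ℝ) ^ (-d)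

theorem Bd.mono {h : ℕ → ℝ} {t : ℕ} {d e : ℝ} (H : Bd h t d) (hde : e ≤ d) : Bd h t e := by
  obtain ⟨C, hC⟩ := H
  refine ⟨|C|, ?_⟩
  filter_upwards [hC, eventually_ge_atTop 1] with n hn h1
  have h2 : (1 : ℝ) ≤ n := by exact_mod_cast h1
  calc |D t h n| ≤ C * (n : ℝ) ^ (-d) := hn
    _ ≤ |C| * (n : ℝ) ^ (-d) := mul_le_mul_of_nonneg_right (le_abs_self C) (by positivity)
    _ ≤ |C| * (n : ℝ) ^ (-e) :=
        mul_le_mul_of_nonneg_left (Real.rpow_le_rpow_of_exponent_le h2 (by linarith))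
          (abs_nonneg C)

/-- One step of the downward induction. -/
theorem Bd.step {h : ℕ → ℝ} {s : ℕ} {e d α : ℝ} (he : 0 ≤ e) (hd : 0 ≤ d) (hα0 : 0 ≤ α)
    (H0 : Bd h 0 e) (H1 : Bd h (s + 1) d) : Bd h s (min (e + α * s) (d - α)) := by
  obtain ⟨C0, hC0⟩ := H0
  obtain ⟨C1, hC1⟩ := H1
  refine ⟨2 ^ s * |C0| + s * 2 * |C1|, ?_⟩
  obtain ⟨N0, hN0⟩ := eventually_atTop.mp hC0
  obtain ⟨N1, hN1⟩ := eventually_atTop.mp hC1
  filter_upwards [eventually_ge_atTop (max (max N0 N1) 1)] with n hn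
  have hn0 : N0 ≤ n := le_trans (le_trans (le_max_left _ _) (le_max_left _ _)) hn
  have hn1 : N1 ≤ n := le_trans (le_trans (le_max_right _ _) (le_max_left _ _)) hn
  have hn1' : 1 ≤ n := le_trans (le_max_right _ _) hn
  have hnr : (1 : ℝ) ≤ n := by exact_mod_cast hn1'
  have hnp : (0 : ℝ) < n := by linarith
  set m := ⌈(n : ℝ) ^ α⌉₊ with hm
  have hpow1 : (1 : ℝ) ≤ (n : ℝ) ^ α := Real.one_le_rpow hnr hα0
  have hm1 : (n : ℝ) ^ α ≤ m := Nat.le_ceil _
  have hm2 : (m : ℝ) ≤ 2 * (n : ℝ) ^ α := by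
    have := Nat.ceil_lt_add_one (show (0 : ℝ) ≤ (n : ℝ) ^ α by positivity)
    rw [← hm] at this
    linarith
  have hmp : (0 : ℝ) < m := by linarith
  have key : ∀ (x : ℝ) (i : ℕ), 0 ≤ x → ((n + i : ℕ) : ℝ) ^ (-x) ≤ (n : ℝ) ^ (-x) := by
    intro x i hx
    exact Real.rpow_le_rpow_of_nonpos hnp (by exact_mod_cast Nat.le_add_right n i) (by linarith)
  have b0 : ∀ i ≤ s * m, |h (n + i)| ≤ |C0| * (n : ℝ) ^ (-e) := by
    intro i _
    have := hN0 (n + i) (by omega)
    rw [D_zero] at this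
    calc |h (n + i)| ≤ C0 * ((n + i : ℕ) : ℝ) ^ (-e) := this
      _ ≤ |C0| * ((n + i : ℕ) : ℝ) ^ (-e) :=
          mul_le_mul_of_nonneg_right (le_abs_self _) (by positivity)
      _ ≤ _ := mul_le_mul_of_nonneg_left (key e i he) (abs_nonneg _)
  have b1 : ∀ i ≤ s * m, |D (s + 1) h (n + i)| ≤ |C1| * (n : ℝ) ^ (-d) := by
    intro i _
    have := hN1 (n + i) (by omega)
    calc |D (s + 1) h (n + i)| ≤ C1 * ((n + i : ℕ) : ℝ) ^ (-d) := this
      _ ≤ |C1| * ((n + i : ℕ) : ℝ) ^ (-d) :=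
          mul_le_mul_of_nonneg_right (le_abs_self _) (by positivity)
      _ ≤ _ := mul_le_mul_of_nonneg_left (key d i hd) (abs_nonneg _)
  have L := landau m s h n _ _ (by positivity) b0 b1
  have hL : |D s h n| ≤ 2 ^ s * (|C0| * (n : ℝ) ^ (-e)) / (m : ℝ) ^ s
      + s * m * (|C1| * (n : ℝ) ^ (-d)) := by
    rw [div_add' _ _ _ (by positivity), le_div_iff₀ (by positivity)]
    calc |D s h n| * (m : ℝ) ^ s = (m : ℝ) ^ s * |D s h n| := mul_comm _ _
      _ ≤ _ := L
      _ = _ := by ring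
  have c1 : (n : ℝ) ^ (-e) / (m : ℝ) ^ s ≤ (n : ℝ) ^ (-(min (e + α * s) (d - α))) := by
    have : (n : ℝ) ^ (α * s) ≤ (m : ℝ) ^ s := by
      rw [Real.rpow_mul hnp.le, Real.rpow_natCast]
      exact pow_le_pow_left₀ (by positivity) hm1 s
    calc (n : ℝ) ^ (-e) / (m : ℝ) ^ s ≤ (n : ℝ) ^ (-e) / (n : ℝ) ^ (α * s) :=
          div_le_div_of_nonneg_left (by positivity) (by positivity) this
      _ = (n : ℝ) ^ (-(e + α * s)) := by
          rw [← Real.rpow_sub hnp]; congr 1; ring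
      _ ≤ _ := Real.rpow_le_rpow_of_exponent_le hnr (neg_le_neg (min_le_left _ _))
  have c2 : (m : ℝ) * (n : ℝ) ^ (-d) ≤ 2 * (n : ℝ) ^ (-(min (e + α * s) (d - α))) := by
    calc (m : ℝ) * (n : ℝ) ^ (-d) ≤ (2 * (n : ℝ) ^ α) * (n : ℝ) ^ (-d) :=
          mul_le_mul_of_nonneg_right hm2 (by positivity)
      _ = 2 * (n : ℝ) ^ (-(d - α)) := by
          rw [mul_assoc, ← Real.rpow_add hnp]; congr 2; ring
      _ ≤ _ := mul_le_mul_of_nonneg_left
          (Real.rpow_le_rpow_of_exponent_le hnr (neg_le_neg (min_le_right _ _))) (by norm_num)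
  calc |D s h n| ≤ 2 ^ s * (|C0| * (n : ℝ) ^ (-e)) / (m : ℝ) ^ s
      + s * m * (|C1| * (n : ℝ) ^ (-d)) := hL
    _ = 2 ^ s * |C0| * ((n : ℝ) ^ (-e) / (m : ℝ) ^ s)
      + s * |C1| * ((m : ℝ) * (n : ℝ) ^ (-d)) := by ring
    _ ≤ 2 ^ s * |C0| * (n : ℝ) ^ (-(min (e + α * s) (d - α)))
      + s * |C1| * (2 * (n : ℝ) ^ (-(min (e + α * s) (d - α)))) := by
        gcongr
    _ = _ := by ring

/-- Regular to all orders with exponents below `κ`. -/
def Reg (κ : ℝ) (h : ℕ → ℝ) : Prop :=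
  ∀ a : ℝ, 0 ≤ a → a < κ → ∀ r : ℕ, 1 ≤ r → Bd h r (a * r)

theorem Bd.differences {h : ℕ → ℝ} {κ e α : ℝ} (hR : Reg κ h) (he : 0 ≤ e)
    (hα0 : 0 ≤ α) (hακ : α < κ) (H0 : Bd h 0 e) (s : ℕ) : Bd h s (e + α * s) := by
  set a := (α + κ) / 2 with ha
  have haα : α < a := by rw [ha]; linarith
  have haκ : a < κ := by rw [ha]; linarith
  obtain ⟨r0, hr0⟩ := exists_nat_ge (e / (a - α))
  set r := max r0 (s + 1) with hr
  have hr1 : e ≤ (a - α) * r := by
    have : e / (a - α) ≤ r := hr0.trans (by exact_mod_cast le_max_left _ _)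
    rw [div_le_iff₀ (by linarith)] at this
    linarith [this, mul_comm (r : ℝ) (a - α)]
  have hsr : s ≤ r := le_trans (Nat.le_succ s) (le_max_right _ _)
  have hr1' : 1 ≤ r := le_trans (by omega) (le_max_right _ _)
  -- downward induction
  have main : ∀ j ≤ r, Bd h (r - j) (e + α * ((r - j : ℕ) : ℝ)) := by
    intro j
    induction j with
    | zero =>
      intro _
      refine (hR a (by linarith) haκ r hr1').mono ?_
      simp only [Nat.sub_zero]
      nlinarith
    | succ j ih =>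
      intro hj
      have h1 := ih (by omega)
      have h2 : r - j = (r - (j + 1)) + 1 := by omega
      rw [h2] at h1
      have hd : (0 : ℝ) ≤ e + α * ((r - (j + 1) + 1 : ℕ) : ℝ) := by positivity
      have h3 := Bd.step (α := α) he hd hα0 H0 h1
      refine h3.mono ?_
      push_cast
      rw [le_min_iff]
      constructor
      · exact le_refl _
      · ring_nf; exact le_refl _
  have := main (r - s) (by omega)
  rwa [Nat.sub_sub_self hsr] at this

/-- From a sparse set to all indices. -/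
theorem Bd.of_sparse {h : ℕ → ℝ} {M d α : ℝ} (hM : 0 ≤ M) (hd : 0 ≤ d) (hα0 : 0 ≤ α)
    (hα1 : α ≤ 1)
    (u : ℕ → ℕ) (hu : Tendsto u atTop atTop)
    (hgap : ∀ᶠ j in atTop, (u (j + 1) : ℝ) ≤ u j + (u j : ℝ) ^ α)
    (hval : ∃ C : ℝ, ∀ᶠ j in atTop, |h (u j)| ≤ C * (u j : ℝ) ^ (-M))
    (H1 : Bd h 1 d) : Bd h 0 (min M (d - α)) := by
  obtain ⟨C, hC⟩ := hval
  obtain ⟨C1, hC1⟩ := H1
  obtain ⟨N1, hN1⟩ := eventually_atTop.mp hC1
  have hall := (hC.and (hgap.and (hu.eventually_ge_atTop (max N1 1))))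
  obtain ⟨J, hJ⟩ := eventually_atTop.mp hall
  refine ⟨|C| * 2 ^ M + |C1| * 2 ^ d, ?_⟩
  filter_upwards [eventually_ge_atTop (u J)] with n hn
  -- the last index before the sequence exceeds `n`
  have hex : ∃ j, J ≤ j ∧ n < u (j + 1) := by
    obtain ⟨j, hj⟩ := (hu.eventually_gt_atTop n).and (eventually_ge_atTop (J + 1)) |>.exists
    exact ⟨j - 1, by omega, by rw [Nat.sub_add_cancel (by omega)]; exact hj.1⟩
  classical
  set j := Nat.find hex with hj
  have hjs := Nat.find_spec hex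
  rw [← hj] at hjs
  obtain ⟨hJj, hlt⟩ := hjs
  have hle : u j ≤ n := by
    rcases Nat.lt_or_ge J j with h1 | h1
    · by_contra hcon
      push Not at hcon
      have : j ≤ j - 1 := by
        rw [hj]
        refine Nat.find_min' hex ⟨?_, ?_⟩
        · rw [← hj]; omega
        · rw [← hj, Nat.sub_add_cancel (by omega)]; exact hcon
      omega
    · have : j = J := le_antisymm h1 hJj
      rw [this]; exact hn
  obtain ⟨hv, hg, hl⟩ := hJ j hJj
  have hu1 : 1 ≤ u j := le_trans (le_max_right _ _) hl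
  have huN : N1 ≤ u j := le_trans (le_max_left _ _) hl
  have hur : (1 : ℝ) ≤ u j := by exact_mod_cast hu1
  have hup : (0 : ℝ) < u j := by linarith
  have hnr : (u j : ℝ) ≤ n := by exact_mod_cast hle
  have hnp : (0 : ℝ) < n := by linarith
  have hpow : (u j : ℝ) ^ α ≤ u j := by
    calc (u j : ℝ) ^ α ≤ (u j : ℝ) ^ (1 : ℝ) := Real.rpow_le_rpow_of_exponent_le hur hα1
      _ = u j := Real.rpow_one _
  have hn2 : (n : ℝ) ≤ 2 * u j := by
    have : (n : ℝ) ≤ u (j + 1) := by exact_mod_cast hlt.le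
    linarith
  have hgap' : (n : ℝ) - u j ≤ (n : ℝ) ^ α := by
    have h1 : (n : ℝ) ≤ u (j + 1) := by exact_mod_cast hlt.le
    have h2 : (u j : ℝ) ^ α ≤ (n : ℝ) ^ α := Real.rpow_le_rpow hup.le hnr hα0
    linarith
  have half : ∀ x : ℝ, 0 ≤ x → (u j : ℝ) ^ (-x) ≤ 2 ^ x * (n : ℝ) ^ (-x) := by
    intro x hx
    have h1 : (n : ℝ) / 2 ≤ u j := by linarith
    calc (u j : ℝ) ^ (-x) ≤ ((n : ℝ) / 2) ^ (-x) :=
          Real.rpow_le_rpow_of_nonpos (by positivity) h1 (by linarith)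
      _ = 2 ^ x * (n : ℝ) ^ (-x) := by
          rw [Real.div_rpow hnp.le (by norm_num), Real.rpow_neg (by norm_num : (0 : ℝ) ≤ 2)]
          field_simp
  -- telescoping
  have tel : ∀ k, |h (u j + k) - h (u j)| ≤ k * (|C1| * (u j : ℝ) ^ (-d)) := by
    intro k
    induction k with
    | zero => simp
    | succ k ih =>
      have h1 := hN1 (u j + k) (by omega)
      have h2 : D 1 h (u j + k) = h (u j + k) - h (u j + k + 1) := by
        rw [show (1 : ℕ) = 0 + 1 by rfl, D_succ, D_zero, D_zero]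
      rw [h2] at h1
      have h3 : ((u j + k : ℕ) : ℝ) ^ (-d) ≤ (u j : ℝ) ^ (-d) :=
        Real.rpow_le_rpow_of_nonpos hup (by exact_mod_cast Nat.le_add_right _ _) (by linarith)
      have h4 : |h (u j + k) - h (u j + k + 1)| ≤ |C1| * (u j : ℝ) ^ (-d) :=
        calc _ ≤ C1 * ((u j + k : ℕ) : ℝ) ^ (-d) := h1
          _ ≤ |C1| * ((u j + k : ℕ) : ℝ) ^ (-d) :=
            mul_le_mul_of_nonneg_right (le_abs_self _) (by positivity)
          _ ≤ _ := mul_le_mul_of_nonneg_left h3 (abs_nonneg _)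
      calc |h (u j + (k + 1)) - h (u j)|
          = |(h (u j + k) - h (u j)) - (h (u j + k) - h (u j + k + 1))| := by
            congr 1; rw [show u j + (k + 1) = u j + k + 1 by ring]; ring
        _ ≤ |h (u j + k) - h (u j)| + |h (u j + k) - h (u j + k + 1)| := abs_sub _ _
        _ ≤ k * (|C1| * (u j : ℝ) ^ (-d)) + |C1| * (u j : ℝ) ^ (-d) := add_le_add ih h4
        _ = ((k + 1 : ℕ) : ℝ) * (|C1| * (u j : ℝ) ^ (-d)) := by push_cast; ring
  have hk := tel (n - u j)
  rw [Nat.add_sub_cancel' hle, Nat.cast_sub hle] at hk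
  have hn1 : (1 : ℝ) ≤ n := by linarith
  rw [D_zero]
  calc |h n| = |(h n - h (u j)) + h (u j)| := by congr 1; ring
    _ ≤ |h n - h (u j)| + |h (u j)| := abs_add_le _ _
    _ ≤ ((n : ℝ) - u j) * (|C1| * (u j : ℝ) ^ (-d)) + |C| * (u j : ℝ) ^ (-M) := by
        refine add_le_add hk (hv.trans ?_)
        exact mul_le_mul_of_nonneg_right (le_abs_self _) (by positivity)
    _ ≤ (n : ℝ) ^ α * (|C1| * (2 ^ d * (n : ℝ) ^ (-d))) + |C| * (2 ^ M * (n : ℝ) ^ (-M)) := by
        gcongr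
        · exact half d hd
        · exact half M hM
    _ = |C| * 2 ^ M * (n : ℝ) ^ (-M) + |C1| * 2 ^ d * (n : ℝ) ^ (-(d - α)) := by
        have : (n : ℝ) ^ (-(d - α)) = (n : ℝ) ^ α * (n : ℝ) ^ (-d) := by
          rw [← Real.rpow_add hnp]; congr 1; ring
        rw [this]; ring
    _ ≤ |C| * 2 ^ M * (n : ℝ) ^ (-(min M (d - α)))
          + |C1| * 2 ^ d * (n : ℝ) ^ (-(min M (d - α))) := by
        refine add_le_add (mul_le_mul_of_nonneg_left ?_ (by positivity))
          (mul_le_mul_of_nonneg_left ?_ (by positivity))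
        · exact Real.rpow_le_rpow_of_exponent_le hn1 (neg_le_neg (min_le_left _ _))
        · exact Real.rpow_le_rpow_of_exponent_le hn1 (neg_le_neg (min_le_right _ _))
    _ = _ := by ring

/-- **Sparse values determine everything.** -/
theorem sparse {h : ℕ → ℝ} {κ M α : ℝ} (hR : Reg κ h) (hκ : κ ≤ 1) (hM : 0 ≤ M)
    (hα0 : 0 ≤ α) (hακ : α < κ)
    (u : ℕ → ℕ) (hu : Tendsto u atTop atTop)
    (hgap : ∀ᶠ j in atTop, (u (j + 1) : ℝ) ≤ u j + (u j : ℝ) ^ α)
    (hval : ∃ C : ℝ, ∀ᶠ j in atTop, |h (u j)| ≤ C * (u j : ℝ) ^ (-M))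
    (s : ℕ) (b : ℝ) (hb0 : 0 ≤ b) (hb : b < κ) : Bd h s (M + b * s) := by
  set a := (α + κ) / 2 with ha
  have haα : α < a := by rw [ha]; linarith
  have haκ : a < κ := by rw [ha]; linarith
  have step : ∀ e, 0 ≤ e → Bd h 1 (e + a) → Bd h 0 (min M (e + (a - α))) := by
    intro e he H
    have := Bd.of_sparse hM (by linarith : 0 ≤ e + a) hα0 (by linarith) u hu hgap hval H
    rwa [add_sub_assoc] at this
  have iter : ∀ N : ℕ, Bd h 0 (min M (((N : ℝ) + 1) * (a - α))) := by
    intro N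
    induction N with
    | zero =>
      have h1 := hR a (by linarith) haκ 1 le_rfl
      have h2 := step 0 le_rfl (by simpa using h1)
      simpa using h2
    | succ N ih =>
      have he : 0 ≤ min M (((N : ℝ) + 1) * (a - α)) :=
        le_min hM (mul_nonneg (by positivity) (by linarith))
      have h1 := Bd.differences hR he (by linarith) haκ ih 1
      have h2 := step _ he (by simpa using h1)
      refine h2.mono ?_
      rw [le_min_iff]
      refine ⟨min_le_left _ _, ?_⟩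
      rcases le_total M (((N : ℝ) + 1) * (a - α)) with h3 | h3
      · rw [min_eq_left h3]
        exact (min_le_left _ _).trans (by linarith)
      · rw [min_eq_right h3]
        refine (min_le_right _ _).trans (le_of_eq ?_)
        push_cast; ring
  obtain ⟨N, hN⟩ := exists_nat_ge (M / (a - α))
  have hM' : M ≤ ((N : ℝ) + 1) * (a - α) := by
    rw [div_le_iff₀ (by linarith)] at hN
    nlinarith
  have h0 : Bd h 0 M := by
    have := iter N
    rwa [min_eq_left hM'] at this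
  exact Bd.differences hR hM hb0 hb h0 s

end Pool.Agent.N226.SX
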