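import Pool.Agent.N226.SX.Main
import Pool.Agent.N226.KZ.Cor
import Pool.Agent.TH966.KS.Kn

/-!
# Lattice knots: expansions along sparse lengths
-/

set_option autoImplicit false

namespace Pool.Agent.N226.SX

open Finset Filter Topology KN

theorem G_bound (q : ℕ) (β : ℝ) (c θ : Fin q → ℝ) (hθ : ∀ i, 0 ≤ θ i) (x : ℝ) (hx : 1 ≤ x) :
    |G q β c θ x - β * Real.log x| ≤ ∑ i, |c i| := by
  unfold G
  rw [add_sub_cancel_left]
  refine (Finset.abs_sum_le_sum_abs _ _).trans (Finset.sum_le_sum fun i _ => ?_)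
  rw [abs_mul, abs_of_nonneg (Real.rpow_nonneg (by linarith) _)]
  calc |c i| * x ^ (-(θ i)) ≤ |c i| * 1 :=
        mul_le_mul_of_nonneg_left (Real.rpow_le_one_of_one_le_of_nonpos hx (by linarith [hθ i]))
          (abs_nonneg _)
    _ = |c i| := mul_one _

/-- An expansion along sparse lengths bounds the counts at all lengths. -/
theorem knot_growth {Q : List Dir → Prop} (hQ : KClass Q) (hne : ∃ w, SAP w ∧ Q w)
    (q : ℕ) (β : ℝ) (c θ : Fin q → ℝ) (hθ : ∀ i, 0 ≤ θ i)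
    (M α : ℝ) (hM : 0 ≤ M) (hα : α < 1 / 2) (v : ℕ → ℕ) (hv : Tendsto v atTop atTop)
    (hgap : ∀ᶠ j in atTop, (v (j + 1) : ℝ) ≤ v j + (v j : ℝ) ^ α)
    (hval : ∃ C : ℝ, ∀ᶠ j in atTop, |Real.log (pq Q (2 * v j) / gr Q ^ (2 * v j)) -
      G q β c θ ((2 * v j : ℕ) : ℝ)| ≤ C * (v j : ℝ) ^ (-M)) :
    ∃ c' : ℝ, ∀ᶠ k : ℕ in atTop,
      |Real.log (pq Q (2 * k) / gr Q ^ (2 * k))| ≤ c' * Real.log (2 * k) := by
  obtain ⟨C, hC⟩ := hval
  obtain ⟨g1, -, g2⟩ := gr_bounds Q hQ hne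
  have hμ : 0 < gr Q := by linarith
  set B : ℝ := ∑ i, |c i| + |C| with hB
  have hB0 : 0 ≤ B := by positivity
  have hpos := class_pos Q hQ hne
  have hform : ∀ᶠ j : ℕ in atTop,
      Real.exp (-B) ≤ pq Q (2 * v j) / ((2 * v j : ℝ) ^ β * gr Q ^ (2 * v j)) ∧
      pq Q (2 * v j) / ((2 * v j : ℝ) ^ β * gr Q ^ (2 * v j)) ≤ Real.exp B := by
    filter_upwards [hC, hv.eventually hpos, hv.eventually_ge_atTop 1] with j h1 h2 h3
    have hv1 : (1 : ℝ) ≤ v j := by exact_mod_cast h3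
    have hn1 : (1 : ℝ) ≤ 2 * (v j : ℝ) := by linarith
    have hgp : 0 < gr Q ^ (2 * v j) := pow_pos hμ _
    have hnp : (0 : ℝ) < (2 * (v j : ℝ)) ^ β := Real.rpow_pos_of_pos (by linarith) _
    have e1 : Real.log (pq Q (2 * v j) / ((2 * v j : ℝ) ^ β * gr Q ^ (2 * v j))) =
        Real.log (pq Q (2 * v j) / gr Q ^ (2 * v j)) - β * Real.log (2 * (v j : ℝ)) := by
      rw [Real.log_div h2.ne' (by positivity), Real.log_mul hnp.ne' hgp.ne',
        Real.log_div h2.ne' hgp.ne', Real.log_rpow (by linarith)]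
      ring
    have e2 : |Real.log (pq Q (2 * v j) / ((2 * v j : ℝ) ^ β * gr Q ^ (2 * v j)))| ≤ B := by
      rw [e1]
      have e3 := G_bound q β c θ hθ ((2 * v j : ℕ) : ℝ) (by push_cast; linarith)
      have e4 : C * (v j : ℝ) ^ (-M) ≤ |C| := by
        calc C * (v j : ℝ) ^ (-M) ≤ |C| * (v j : ℝ) ^ (-M) :=
              mul_le_mul_of_nonneg_right (le_abs_self _) (by positivity)
          _ ≤ |C| * 1 := mul_le_mul_of_nonneg_left
              (Real.rpow_le_one_of_one_le_of_nonpos hv1 (by linarith)) (abs_nonneg _)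
          _ = |C| := mul_one _
      calc |Real.log (pq Q (2 * v j) / gr Q ^ (2 * v j)) - β * Real.log (2 * (v j : ℝ))|
          = |(Real.log (pq Q (2 * v j) / gr Q ^ (2 * v j)) - G q β c θ ((2 * v j : ℕ) : ℝ)) +
              (G q β c θ ((2 * v j : ℕ) : ℝ) - β * Real.log ((2 * v j : ℕ) : ℝ))| := by
            congr 1; push_cast; ring
        _ ≤ |C| + ∑ i, |c i| := (abs_add_le _ _).trans (add_le_add (h1.trans e4) e3)
        _ = B := by rw [hB]; ring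
    have hX : 0 < pq Q (2 * v j) / ((2 * v j : ℝ) ^ β * gr Q ^ (2 * v j)) := by positivity
    rw [abs_le] at e2
    exact ⟨(Real.le_log_iff_exp_le hX).mp e2.1, (Real.log_le_iff_le_exp hX).mp e2.2⟩
  have hgap' : ∀ᶠ j : ℕ in atTop, (v (j + 1) : ℝ) ≤ v j + 1 * √(v j) := by
    filter_upwards [hgap, hv.eventually_ge_atTop 1] with j h1 h2
    have hv1 : (1 : ℝ) ≤ v j := by exact_mod_cast h2
    rw [one_mul, Real.sqrt_eq_rpow]
    linarith [Real.rpow_le_rpow_of_exponent_le hv1 hα.le]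
  obtain ⟨c₃, c₄, hc₃, h⟩ := TH966.KS.bounds Q hQ hne v hv 1 hgap' β _ _ (Real.exp_pos _) hform
  refine ⟨|β| + 2 * (|Real.log c₃| + |Real.log c₄|), ?_⟩
  filter_upwards [h, hpos, eventually_ge_atTop 1] with k h1 h2 h3
  have hk1 : (1 : ℝ) ≤ k := by exact_mod_cast h3
  have hn1 : (2 : ℝ) ≤ 2 * (k : ℝ) := by linarith
  have hgp : 0 < gr Q ^ (2 * k) := pow_pos hμ _
  have hnp : (0 : ℝ) < (2 * (k : ℝ)) ^ β := Real.rpow_pos_of_pos (by linarith) _
  have e1 : Real.log (pq Q (2 * k) / ((2 * k : ℝ) ^ β * gr Q ^ (2 * k))) =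
      Real.log (pq Q (2 * k) / gr Q ^ (2 * k)) - β * Real.log (2 * (k : ℝ)) := by
    rw [Real.log_div h2.ne' (by positivity), Real.log_mul hnp.ne' hgp.ne',
      Real.log_div h2.ne' hgp.ne', Real.log_rpow (by linarith)]
    ring
  have hX : 0 < pq Q (2 * k) / ((2 * k : ℝ) ^ β * gr Q ^ (2 * k)) := by positivity
  have l1 : Real.log c₃ ≤ Real.log (pq Q (2 * k) / ((2 * k : ℝ) ^ β * gr Q ^ (2 * k))) :=
    Real.log_le_log hc₃ h1.1
  have l2 : Real.log (pq Q (2 * k) / ((2 * k : ℝ) ^ β * gr Q ^ (2 * k))) ≤ Real.log c₄ :=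
    Real.log_le_log hX h1.2
  have l3 : |Real.log (pq Q (2 * k) / ((2 * k : ℝ) ^ β * gr Q ^ (2 * k)))| ≤
      |Real.log c₃| + |Real.log c₄| := by
    rw [abs_le]
    constructor
    · linarith [neg_abs_le (Real.log c₃), abs_nonneg (Real.log c₄)]
    · linarith [le_abs_self (Real.log c₄), abs_nonneg (Real.log c₃)]
  have l4 : (1 / 2 : ℝ) ≤ Real.log (2 * k) := by
    have := Real.log_two_gt_d9
    have h5 : Real.log 2 ≤ Real.log (2 * k) := Real.log_le_log (by norm_num) hn1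
    linarith
  have l5 : Real.log (pq Q (2 * k) / gr Q ^ (2 * k)) =
      Real.log (pq Q (2 * k) / ((2 * k : ℝ) ^ β * gr Q ^ (2 * k))) + β * Real.log (2 * (k : ℝ)) := by
    rw [e1]; ring
  rw [l5]
  calc |Real.log (pq Q (2 * k) / ((2 * k : ℝ) ^ β * gr Q ^ (2 * k))) + β * Real.log (2 * (k : ℝ))|
      ≤ (|Real.log c₃| + |Real.log c₄|) + |β| * Real.log (2 * k) := by
        refine (abs_add_le _ _).trans (add_le_add l3 (le_of_eq ?_))
        rw [abs_mul, abs_of_nonneg (by linarith : 0 ≤ Real.log (2 * (k : ℝ)))]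
    _ ≤ _ := by nlinarith [abs_nonneg (Real.log c₃), abs_nonneg (Real.log c₄)]

theorem sqrt_rate (a : ℝ) (ha : a < 1 / 2) :
    ∀ᶠ k : ℕ in atTop, Real.sqrt (Real.log (2 * k) / (2 * k)) ≤ (k : ℝ) ^ (-a) := by
  have h1 := (isLittleO_log_rpow_atTop (show (0 : ℝ) < 1 - 2 * a by linarith)).bound
    (show (0 : ℝ) < 1 by norm_num)
  have ht : Tendsto (fun k : ℕ => 2 * (k : ℝ)) atTop atTop :=
    tendsto_natCast_atTop_atTop.const_mul_atTop (by norm_num)
  by_cases ha0 : 0 ≤ a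
  · filter_upwards [ht.eventually h1, eventually_ge_atTop 1] with k hn h2
    have hk1 : (1 : ℝ) ≤ k := by exact_mod_cast h2
    have hnp : (0 : ℝ) < 2 * (k : ℝ) := by linarith
    rw [Real.norm_of_nonneg (Real.log_nonneg (by linarith)), Real.norm_of_nonneg (by positivity),
      one_mul] at hn
    refine Real.sqrt_le_iff.mpr ⟨by positivity, ?_⟩
    rw [div_le_iff₀ hnp]
    calc Real.log (2 * k) ≤ (2 * (k : ℝ)) ^ (1 - 2 * a) := hn
      _ = (2 * (k : ℝ)) ^ (-(2 * a)) * (2 * k) := by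
          rw [← Real.rpow_add_one hnp.ne']; congr 1; ring
      _ ≤ (k : ℝ) ^ (-(2 * a)) * (2 * k) := by
          refine mul_le_mul_of_nonneg_right ?_ hnp.le
          exact Real.rpow_le_rpow_of_nonpos (by linarith) (by linarith) (by linarith)
      _ = ((k : ℝ) ^ (-a)) ^ 2 * (2 * k) := by
          rw [← Real.rpow_natCast, ← Real.rpow_mul (by linarith)]
          congr 2; push_cast; ring
  · have h3 : ∀ᶠ k : ℕ in atTop, Real.sqrt (Real.log (2 * k) / (2 * k)) ≤ 1 := by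
      filter_upwards [eventually_ge_atTop 1] with k h2
      have hk1 : (1 : ℝ) ≤ k := by exact_mod_cast h2
      refine Real.sqrt_le_iff.mpr ⟨by norm_num, ?_⟩
      rw [div_le_iff₀ (by linarith)]
      have := Real.log_le_sub_one_of_pos (show (0 : ℝ) < 2 * k by linarith)
      linarith
    filter_upwards [h3, eventually_ge_atTop 1] with k h4 h5
    have hk1 : (1 : ℝ) ≤ k := by exact_mod_cast h5
    exact h4.trans (Real.one_le_rpow hk1 (by push Not at ha0; linarith))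

theorem knot_reg {Q : List Dir → Prop} (hQ : KClass Q) (hne : ∃ w, SAP w ∧ Q w) (c' : ℝ)
    (h : ∀ᶠ k : ℕ in atTop,
      |Real.log (pq Q (2 * k) / gr Q ^ (2 * k))| ≤ c' * Real.log (2 * k)) :
    Reg (1 / 2) (fun k => (fun n : ℕ => Real.log (pq Q n / gr Q ^ n)) (2 * k + 0)) := by
  intro a ha0 ha r hr
  obtain ⟨C, hC⟩ := Pool.Agent.N226.KZ.corP hQ hne c' h r hr
  refine ⟨|C|, ?_⟩
  filter_upwards [hC, sqrt_rate a ha, eventually_ge_atTop 1] with k h1 h2 h3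
  have hk1 : (1 : ℝ) ≤ k := by exact_mod_cast h3
  have e : D r (fun k => (fun n : ℕ => Real.log (pq Q n / gr Q ^ n)) (2 * k + 0)) k =
      ∑ i ∈ range (r + 1), (-1 : ℝ) ^ i * (r.choose i : ℝ) *
        Real.log (pq Q (2 * k + 2 * i) / gr Q ^ (2 * k + 2 * i)) := by
    unfold D
    refine Finset.sum_congr rfl fun i _ => ?_
    simp only
    rw [show 2 * (k + i) + 0 = 2 * k + 2 * i by ring]
  rw [e]
  have h0 := Real.sqrt_nonneg (Real.log (2 * k) / (2 * k))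
  refine h1.trans ?_
  calc C * Real.sqrt (Real.log (2 * k) / (2 * k)) ^ r
      ≤ |C| * Real.sqrt (Real.log (2 * k) / (2 * k)) ^ r :=
        mul_le_mul_of_nonneg_right (le_abs_self _) (pow_nonneg h0 _)
    _ ≤ |C| * ((k : ℝ) ^ (-a)) ^ r :=
        mul_le_mul_of_nonneg_left (pow_le_pow_left₀ h0 h2 r) (abs_nonneg _)
    _ = |C| * (k : ℝ) ^ (-(a * r)) := by
        rw [← Real.rpow_natCast, ← Real.rpow_mul (by linarith)]
        congr 2; ring

/-- **Lattice knots.** -/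
theorem knots {Q : List Dir → Prop} (hQ : KClass Q) (hne : ∃ w, SAP w ∧ Q w)
    (q : ℕ) (β : ℝ) (c θ : Fin q → ℝ) (hθ : ∀ i, 0 ≤ θ i)
    (M α : ℝ) (hM : 0 ≤ M) (hα0 : 0 ≤ α) (hα : α < 1 / 2) (v : ℕ → ℕ)
    (hv : Tendsto v atTop atTop)
    (hgap : ∀ᶠ j in atTop, (v (j + 1) : ℝ) ≤ v j + (v j : ℝ) ^ α)
    (hval : ∃ C : ℝ, ∀ᶠ j in atTop, |Real.log (pq Q (2 * v j) / gr Q ^ (2 * v j)) -
      G q β c θ ((2 * v j : ℕ) : ℝ)| ≤ C * (v j : ℝ) ^ (-M))
    (s : ℕ) (b : ℝ) (hb0 : 0 ≤ b) (hb : b < 1 / 2) :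
    ∃ C : ℝ, ∀ᶠ k : ℕ in atTop,
      |D2 s (fun n => Real.log (pq Q n / gr Q ^ n) - G q β c θ n) (2 * k)| ≤
      C * (k : ℝ) ^ (-(M + b * s)) := by
  obtain ⟨c', hc'⟩ := knot_growth hQ hne q β c θ hθ M α hM hα v hv hgap hval
  exact main_two (by norm_num) (f := fun n : ℕ => Real.log (pq Q n / gr Q ^ n))
    (g := fun n : ℕ => G q β c θ n) 0 (knot_reg hQ hne c' hc')
    (reg_G2 (1 / 2) (by norm_num) 0 q β c θ hθ) M α hM hα0 hα v hv hgap hval s b hb0 hb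

end Pool.Agent.N226.SX
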