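import Pool.Agent.N226.SX.Main

/-!
# The little-o form: errors which are small along sparse lengths are small at all lengths
-/

set_option autoImplicit false

namespace Pool.Agent.N226.SX

open Finset Filter Topology

/-- Every large index is close to an index of the sparse sequence. -/
theorem near {h : ℕ → ℝ} {d α : ℝ} (hd : 0 ≤ d) (hα0 : 0 ≤ α) (hα1 : α ≤ 1)
    (u : ℕ → ℕ) (hu : Tendsto u atTop atTop)
    (hgap : ∀ᶠ j in atTop, (u (j + 1) : ℝ) ≤ u j + (u j : ℝ) ^ α)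
    (H1 : Bd h 1 d) : ∃ C : ℝ, 0 ≤ C ∧ ∀ J0 : ℕ, ∀ᶠ n : ℕ in atTop, ∃ j, J0 ≤ j ∧ 1 ≤ u j ∧
      u j ≤ n ∧ n ≤ 2 * u j ∧ |h n - h (u j)| ≤ C * (n : ℝ) ^ (-(d - α)) := by
  obtain ⟨C1, hC1⟩ := H1
  obtain ⟨N1, hN1⟩ := eventually_atTop.mp hC1
  refine ⟨|C1| * 2 ^ d, by positivity, fun J0 => ?_⟩
  have hall := (hgap.and (hu.eventually_ge_atTop (max N1 1))).and (eventually_ge_atTop J0)
  obtain ⟨J, hJ⟩ := eventually_atTop.mp hall
  filter_upwards [eventually_ge_atTop (u J)] with n hn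
  have hex : ∃ j, J ≤ j ∧ n < u (j + 1) := by
    obtain ⟨j, hj⟩ := (hu.eventually_gt_atTop n).and (eventually_ge_atTop (J + 1)) |>.exists
    exact ⟨j - 1, by omega, by rw [Nat.sub_add_cancel (by omega)]; exact hj.1⟩
  classical
  set j := Nat.find hex with hj
  have hjs := Nat.find_spec hex
  rw [← hj] at hjs
  obtain ⟨hJj, hlt⟩ := hjs
  have hle : u j ≤ n := by
    rcases Nat.lt_or_ge J j with h1 | h1
    · by_contra hcon
      push Not at hcon
      have : j ≤ j - 1 := by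
        rw [hj]
        refine Nat.find_min' hex ⟨?_, ?_⟩
        · rw [← hj]; omega
        · rw [← hj, Nat.sub_add_cancel (by omega)]; exact hcon
      omega
    · have : j = J := le_antisymm h1 hJj
      rw [this]; exact hn
  obtain ⟨⟨hg, hl⟩, hJ0⟩ := hJ j hJj
  have hu1 : 1 ≤ u j := le_trans (le_max_right _ _) hl
  have huN : N1 ≤ u j := le_trans (le_max_left _ _) hl
  have hur : (1 : ℝ) ≤ u j := by exact_mod_cast hu1
  have hup : (0 : ℝ) < u j := by linarith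
  have hnr : (u j : ℝ) ≤ n := by exact_mod_cast hle
  have hnp : (0 : ℝ) < n := by linarith
  have hpow : (u j : ℝ) ^ α ≤ u j := by
    calc (u j : ℝ) ^ α ≤ (u j : ℝ) ^ (1 : ℝ) := Real.rpow_le_rpow_of_exponent_le hur hα1
      _ = u j := Real.rpow_one _
  have hn2 : (n : ℝ) ≤ 2 * u j := by
    have : (n : ℝ) ≤ u (j + 1) := by exact_mod_cast hlt.le
    linarith
  have hgap' : (n : ℝ) - u j ≤ (n : ℝ) ^ α := by
    have h1 : (n : ℝ) ≤ u (j + 1) := by exact_mod_cast hlt.le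
    have h2 : (u j : ℝ) ^ α ≤ (n : ℝ) ^ α := Real.rpow_le_rpow hup.le hnr hα0
    linarith
  have half : (u j : ℝ) ^ (-d) ≤ 2 ^ d * (n : ℝ) ^ (-d) := by
    have h1 : (n : ℝ) / 2 ≤ u j := by linarith
    calc (u j : ℝ) ^ (-d) ≤ ((n : ℝ) / 2) ^ (-d) :=
          Real.rpow_le_rpow_of_nonpos (by positivity) h1 (by linarith)
      _ = 2 ^ d * (n : ℝ) ^ (-d) := by
          rw [Real.div_rpow hnp.le (by norm_num), Real.rpow_neg (by norm_num : (0 : ℝ) ≤ 2)]
          field_simp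
  have tel : ∀ k, |h (u j + k) - h (u j)| ≤ k * (|C1| * (u j : ℝ) ^ (-d)) := by
    intro k
    induction k with
    | zero => simp
    | succ k ih =>
      have h1 := hN1 (u j + k) (by omega)
      have h2 : D 1 h (u j + k) = h (u j + k) - h (u j + k + 1) := by
        rw [show (1 : ℕ) = 0 + 1 by rfl, D_succ, D_zero, D_zero]
      rw [h2] at h1
      have h3 : ((u j + k : ℕ) : ℝ) ^ (-d) ≤ (u j : ℝ) ^ (-d) :=
        Real.rpow_le_rpow_of_nonpos hup (by exact_mod_cast Nat.le_add_right _ _) (by linarith)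
      have h4 : |h (u j + k) - h (u j + k + 1)| ≤ |C1| * (u j : ℝ) ^ (-d) :=
        calc _ ≤ C1 * ((u j + k : ℕ) : ℝ) ^ (-d) := h1
          _ ≤ |C1| * ((u j + k : ℕ) : ℝ) ^ (-d) :=
            mul_le_mul_of_nonneg_right (le_abs_self _) (by positivity)
          _ ≤ _ := mul_le_mul_of_nonneg_left h3 (abs_nonneg _)
      calc |h (u j + (k + 1)) - h (u j)|
          = |(h (u j + k) - h (u j)) - (h (u j + k) - h (u j + k + 1))| := by
            congr 1; rw [show u j + (k + 1) = u j + k + 1 by ring]; ring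
        _ ≤ |h (u j + k) - h (u j)| + |h (u j + k) - h (u j + k + 1)| := abs_sub _ _
        _ ≤ k * (|C1| * (u j : ℝ) ^ (-d)) + |C1| * (u j : ℝ) ^ (-d) := add_le_add ih h4
        _ = ((k + 1 : ℕ) : ℝ) * (|C1| * (u j : ℝ) ^ (-d)) := by push_cast; ring
  have hk := tel (n - u j)
  rw [Nat.add_sub_cancel' hle, Nat.cast_sub hle] at hk
  refine ⟨j, hJ0, hu1, hle, by exact_mod_cast hn2, hk.trans ?_⟩
  calc ((n : ℝ) - u j) * (|C1| * (u j : ℝ) ^ (-d))
      ≤ (n : ℝ) ^ α * (|C1| * (2 ^ d * (n : ℝ) ^ (-d))) := by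
        gcongr
    _ = |C1| * 2 ^ d * (n : ℝ) ^ (-(d - α)) := by
        have : (n : ℝ) ^ (-(d - α)) = (n : ℝ) ^ α * (n : ℝ) ^ (-d) := by
          rw [← Real.rpow_add hnp]; congr 1; ring
        rw [this]; ring

/-- **The little-o form.** -/
theorem sparse_little {h : ℕ → ℝ} {κ M α : ℝ} (hR : Reg κ h) (hκ : κ ≤ 1) (hM : 0 ≤ M)
    (hα0 : 0 ≤ α) (hακ : α < κ)
    (u : ℕ → ℕ) (hu : Tendsto u atTop atTop)
    (hgap : ∀ᶠ j in atTop, (u (j + 1) : ℝ) ≤ u j + (u j : ℝ) ^ α)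
    (hval : Tendsto (fun j => (u j : ℝ) ^ M * h (u j)) atTop (𝓝 0)) :
    Tendsto (fun n : ℕ => (n : ℝ) ^ M * h n) atTop (𝓝 0) := by
  set a := (α + κ) / 2 with ha
  have haα : α < a := by rw [ha]; linarith
  have haκ : a < κ := by rw [ha]; linarith
  -- the bound
  have hval' : ∃ C : ℝ, ∀ᶠ j in atTop, |h (u j)| ≤ C * (u j : ℝ) ^ (-M) := by
    refine ⟨1, ?_⟩
    have h1 := (Metric.tendsto_nhds.mp hval) 1 one_pos
    filter_upwards [h1, hu.eventually_ge_atTop 1] with j h2 h3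
    have hup : (0 : ℝ) < u j := by exact_mod_cast h3
    rw [dist_zero_right, Real.norm_eq_abs, abs_mul, abs_of_nonneg (by positivity)] at h2
    have hp : 0 < (u j : ℝ) ^ M := Real.rpow_pos_of_pos hup _
    rw [one_mul, Real.rpow_neg hup.le, ← one_div, le_div_iff₀ hp]
    linarith [mul_comm (|h (u j)|) ((u j : ℝ) ^ M)]
  have hB : Bd h 1 (M + a) := by
    have := sparse hR hκ hM hα0 hακ u hu hgap hval' 1 a (by linarith) haκ
    simpa using this
  obtain ⟨C, hC0, hC⟩ := near (by linarith : 0 ≤ M + a) hα0 (by linarith) u hu hgap hB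
  rw [Metric.tendsto_nhds]
  intro ε hε
  have hδ : (0 : ℝ) < ε / 2 / 2 ^ M := by positivity
  obtain ⟨J0, hJ0⟩ := eventually_atTop.mp ((Metric.tendsto_nhds.mp hval) _ hδ)
  have hsm : ∀ᶠ n : ℕ in atTop, C * (n : ℝ) ^ (-(a - α)) < ε / 2 := by
    have h1 : Tendsto (fun n : ℕ => C * (n : ℝ) ^ (-(a - α))) atTop (𝓝 (C * 0)) :=
      ((tendsto_rpow_neg_atTop (by linarith : 0 < a - α)).comp
        tendsto_natCast_atTop_atTop).const_mul C
    rw [mul_zero] at h1
    filter_upwards [(Metric.tendsto_nhds.mp h1) (ε / 2) (by positivity)] with n hn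
    rw [dist_zero_right] at hn
    exact lt_of_le_of_lt (le_abs_self _) hn
  filter_upwards [hC J0, hsm, eventually_ge_atTop 1] with n h1 h2 h3
  obtain ⟨j, hj0, hj1, hjn, hjn2, hj⟩ := h1
  have hup : (0 : ℝ) < u j := by exact_mod_cast hj1
  have hnp : (0 : ℝ) < n := by exact_mod_cast h3
  have h4 := hJ0 j hj0
  rw [dist_zero_right, Real.norm_eq_abs, abs_mul, abs_of_nonneg (by positivity)] at h4
  rw [dist_zero_right, Real.norm_eq_abs, abs_mul, abs_of_nonneg (by positivity)]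
  have h5 : (n : ℝ) ^ M ≤ 2 ^ M * (u j : ℝ) ^ M := by
    rw [← Real.mul_rpow (by norm_num) hup.le]
    exact Real.rpow_le_rpow hnp.le (by exact_mod_cast hjn2) hM
  calc (n : ℝ) ^ M * |h n| = (n : ℝ) ^ M * |h (u j) + (h n - h (u j))| := by
        congr 2; ring
    _ ≤ (n : ℝ) ^ M * (|h (u j)| + C * (n : ℝ) ^ (-(M + a - α))) := by
        refine mul_le_mul_of_nonneg_left ?_ (by positivity)
        exact (abs_add_le _ _).trans (by linarith)
    _ = (n : ℝ) ^ M * |h (u j)| + C * (n : ℝ) ^ (-(a - α)) := by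
        have : (n : ℝ) ^ M * (n : ℝ) ^ (-(M + a - α)) = (n : ℝ) ^ (-(a - α)) := by
          rw [← Real.rpow_add hnp]; congr 1; ring
        rw [mul_add, ← this]; ring
    _ ≤ 2 ^ M * ((u j : ℝ) ^ M * |h (u j)|) + C * (n : ℝ) ^ (-(a - α)) := by
        have := mul_le_mul_of_nonneg_right h5 (abs_nonneg (h (u j)))
        linarith
    _ < 2 ^ M * (ε / 2 / 2 ^ M) + ε / 2 := by
        have hp : (0 : ℝ) < 2 ^ M := by positivity
        have := mul_lt_mul_of_pos_left h4 hp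
        linarith
    _ = ε := by field_simp; ring

/-- **Main theorem**, step two, little-o form. -/
theorem main_two_little {κ : ℝ} (hκ : κ ≤ 1) {f : ℕ → ℝ} (ρ : ℕ)
    (hf : Reg κ (fun k => f (2 * k + ρ)))
    {g : ℕ → ℝ} (hg : Reg κ (fun k => g (2 * k + ρ)))
    (M α : ℝ) (hM : 0 ≤ M) (hα0 : 0 ≤ α) (hα : α < κ) (v : ℕ → ℕ) (hv : Tendsto v atTop atTop)
    (hgap : ∀ᶠ j in atTop, (v (j + 1) : ℝ) ≤ v j + (v j : ℝ) ^ α)
    (hval : Tendsto (fun j => (v j : ℝ) ^ M * (f (2 * v j + ρ) - g (2 * v j + ρ))) atTop (𝓝 0)) :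
    Tendsto (fun k : ℕ => (k : ℝ) ^ M * (f (2 * k + ρ) - g (2 * k + ρ))) atTop (𝓝 0) :=
  sparse_little (hf.sub hg) hκ hM hα0 hα v hv hgap hval

end Pool.Agent.N226.SX
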