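import Pool.Agent.N226.SX.Exp

/-!
# Expansions from sparse lengths, and their differences
-/

set_option autoImplicit false

namespace Pool.Agent.N226.SX

open Finset Filter Topology

/-- The `s`-th difference with step `2`. -/
def D2 (s : ℕ) (h : ℕ → ℝ) (n : ℕ) : ℝ :=
  ∑ i ∈ range (s + 1), (-1 : ℝ) ^ i * (s.choose i : ℝ) * h (n + 2 * i)

theorem D2_eq (s : ℕ) (h : ℕ → ℝ) (ρ k : ℕ) :
    D2 s h (2 * k + ρ) = D s (fun k => h (2 * k + ρ)) k := by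
  unfold D2 D
  refine Finset.sum_congr rfl fun i _ => ?_
  simp only
  rw [show 2 * k + ρ + 2 * i = 2 * (k + i) + ρ by ring]

theorem log_rate (a : ℝ) (ha : a < 1 / 2) :
    ∀ᶠ n : ℕ in atTop, Real.log n / Real.sqrt n ≤ (n : ℝ) ^ (-a) := by
  have h1 := (isLittleO_log_rpow_atTop (show (0 : ℝ) < 1 / 2 - a by linarith)).bound
    (show (0 : ℝ) < 1 by norm_num)
  filter_upwards [tendsto_natCast_atTop_atTop.eventually h1, eventually_ge_atTop 1] with n hn h2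
  have hn1 : (1 : ℝ) ≤ n := by exact_mod_cast h2
  have hnp : (0 : ℝ) < n := by linarith
  rw [Real.norm_of_nonneg (Real.log_nonneg hn1), Real.norm_of_nonneg (by positivity), one_mul] at hn
  rw [div_le_iff₀ (Real.sqrt_pos.mpr hnp), Real.sqrt_eq_rpow, ← Real.rpow_add hnp]
  refine hn.trans (le_of_eq ?_)
  congr 1; ring

/-- Rates `(log n / √n) ^ r` give regularity with exponents below `1 / 2`. -/
theorem reg_of_log {f : ℕ → ℝ} (ρ : ℕ)
    (h : ∀ r : ℕ, 1 ≤ r → ∃ K : ℝ, ∀ᶠ n : ℕ in atTop,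
      |D2 r f n| ≤ K * (Real.log n / Real.sqrt n) ^ r) :
    Reg (1 / 2) (fun k => f (2 * k + ρ)) := by
  intro a ha0 ha r hr
  obtain ⟨K, hK⟩ := h r hr
  refine ⟨|K|, ?_⟩
  have ht : Tendsto (fun k : ℕ => 2 * k + ρ) atTop atTop :=
    tendsto_atTop_mono (fun k => (by omega : k ≤ 2 * k + ρ)) tendsto_id
  filter_upwards [ht.eventually hK, ht.eventually (log_rate a ha), eventually_ge_atTop 1]
    with k h1 h2 h3
  have hk1 : (1 : ℝ) ≤ k := by exact_mod_cast h3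
  have hkn : (k : ℝ) ≤ ((2 * k + ρ : ℕ) : ℝ) := by exact_mod_cast (by omega : k ≤ 2 * k + ρ)
  rw [D2_eq] at h1
  have h0 : 0 ≤ Real.log ((2 * k + ρ : ℕ) : ℝ) / Real.sqrt ((2 * k + ρ : ℕ) : ℝ) :=
    div_nonneg (Real.log_nonneg (by linarith)) (Real.sqrt_nonneg _)
  calc |D r (fun k => f (2 * k + ρ)) k|
      ≤ K * (Real.log ((2 * k + ρ : ℕ) : ℝ) / Real.sqrt ((2 * k + ρ : ℕ) : ℝ)) ^ r := h1
    _ ≤ |K| * (Real.log ((2 * k + ρ : ℕ) : ℝ) / Real.sqrt ((2 * k + ρ : ℕ) : ℝ)) ^ r :=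
        mul_le_mul_of_nonneg_right (le_abs_self _) (pow_nonneg h0 _)
    _ ≤ |K| * ((k : ℝ) ^ (-a)) ^ r := by
        refine mul_le_mul_of_nonneg_left (pow_le_pow_left₀ h0 (h2.trans ?_) r) (abs_nonneg _)
        exact Real.rpow_le_rpow_of_nonpos (by linarith) hkn (by linarith)
    _ = |K| * (k : ℝ) ^ (-(a * r)) := by
        rw [← Real.rpow_natCast, ← Real.rpow_mul (by linarith)]
        congr 2; ring

/-- The same for sequences with step one. -/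
theorem reg_of_log_one {f : ℕ → ℝ}
    (h : ∀ r : ℕ, 1 ≤ r → ∃ K : ℝ, ∀ᶠ n : ℕ in atTop,
      |D r f n| ≤ K * (Real.log n / Real.sqrt n) ^ r) :
    Reg (1 / 2) f := by
  intro a ha0 ha r hr
  obtain ⟨K, hK⟩ := h r hr
  refine ⟨|K|, ?_⟩
  filter_upwards [hK, log_rate a ha, eventually_ge_atTop 1] with k h1 h2 h3
  have hk1 : (1 : ℝ) ≤ k := by exact_mod_cast h3
  have h0 : 0 ≤ Real.log (k : ℝ) / Real.sqrt (k : ℝ) :=
    div_nonneg (Real.log_nonneg (by linarith)) (Real.sqrt_nonneg _)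
  calc |D r f k| ≤ K * (Real.log (k : ℝ) / Real.sqrt (k : ℝ)) ^ r := h1
    _ ≤ |K| * (Real.log (k : ℝ) / Real.sqrt (k : ℝ)) ^ r :=
        mul_le_mul_of_nonneg_right (le_abs_self _) (pow_nonneg h0 _)
    _ ≤ |K| * ((k : ℝ) ^ (-a)) ^ r :=
        mul_le_mul_of_nonneg_left (pow_le_pow_left₀ h0 h2 r) (abs_nonneg _)
    _ = |K| * (k : ℝ) ^ (-(a * r)) := by
        rw [← Real.rpow_natCast, ← Real.rpow_mul (by linarith)]
        congr 2; ring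

/-- Rates `(n ^ (-1/3) exp (K (log log n) ^ 2)) ^ r`. -/
theorem third_rate (K a : ℝ) (ha : a < 1 / 3) :
    ∀ᶠ n : ℕ in atTop, (n : ℝ) ^ (-(1 / 3) : ℝ) * Real.exp (K * Real.log (Real.log n) ^ 2) ≤
      (n : ℝ) ^ (-a) := by
  have e0 : (0 : ℝ) < 1 / 3 - a := by linarith
  -- `K (log y) ^ 2 ≤ (1/3 - a) y` for large `y = log n`
  have h1 : ∀ᶠ y : ℝ in atTop, K * Real.log y ^ 2 ≤ (1 / 3 - a) * y := by
    have h2 := (Real.isLittleO_pow_log_id_atTop (n := 2)).bound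
      (show (0 : ℝ) < (1 / 3 - a) / (|K| + 1) by positivity)
    filter_upwards [h2, eventually_ge_atTop 1] with y hy hy1
    simp only [id, Real.norm_eq_abs] at hy
    rw [abs_of_nonneg (by positivity : 0 ≤ Real.log y ^ 2), abs_of_nonneg (by linarith : 0 ≤ y)] at hy
    have hK : 0 ≤ |K| := abs_nonneg K
    calc K * Real.log y ^ 2 ≤ (|K| + 1) * Real.log y ^ 2 :=
          mul_le_mul_of_nonneg_right (by linarith [le_abs_self K]) (by positivity)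
      _ ≤ (|K| + 1) * ((1 / 3 - a) / (|K| + 1) * y) := mul_le_mul_of_nonneg_left hy (by positivity)
      _ = (1 / 3 - a) * y := by field_simp
  have h3 : ∀ᶠ n : ℕ in atTop, K * Real.log (Real.log n) ^ 2 ≤ (1 / 3 - a) * Real.log n :=
    (Real.tendsto_log_atTop.comp tendsto_natCast_atTop_atTop).eventually h1
  filter_upwards [h3, eventually_ge_atTop 1] with n hn h2
  have hnp : (0 : ℝ) < n := by exact_mod_cast h2
  calc (n : ℝ) ^ (-(1 / 3) : ℝ) * Real.exp (K * Real.log (Real.log n) ^ 2)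
      ≤ (n : ℝ) ^ (-(1 / 3) : ℝ) * Real.exp ((1 / 3 - a) * Real.log n) :=
        mul_le_mul_of_nonneg_left (Real.exp_le_exp.mpr hn) (by positivity)
    _ = (n : ℝ) ^ (-a) := by
        rw [mul_comm (1 / 3 - a), Real.exp_mul, Real.exp_log hnp, ← Real.rpow_add hnp]
        congr 1; ring

theorem reg_of_third {f : ℕ → ℝ} (ρ : ℕ) (K0 : ℝ)
    (h : ∀ r : ℕ, 1 ≤ r → ∃ K : ℝ, ∀ᶠ n : ℕ in atTop, |D2 r f n| ≤
      K * ((n : ℝ) ^ (-(1 / 3) : ℝ) * Real.exp (K0 * Real.log (Real.log n) ^ 2)) ^ r) :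
    Reg (1 / 3) (fun k => f (2 * k + ρ)) := by
  intro a ha0 ha r hr
  obtain ⟨K, hK⟩ := h r hr
  refine ⟨|K|, ?_⟩
  have ht : Tendsto (fun k : ℕ => 2 * k + ρ) atTop atTop :=
    tendsto_atTop_mono (fun k => (by omega : k ≤ 2 * k + ρ)) tendsto_id
  filter_upwards [ht.eventually hK, ht.eventually (third_rate K0 a ha), eventually_ge_atTop 1]
    with k h1 h2 h3
  have hk1 : (1 : ℝ) ≤ k := by exact_mod_cast h3
  have hkn : (k : ℝ) ≤ ((2 * k + ρ : ℕ) : ℝ) := by exact_mod_cast (by omega : k ≤ 2 * k + ρ)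
  rw [D2_eq] at h1
  set X : ℝ := ((2 * k + ρ : ℕ) : ℝ) ^ (-(1 / 3) : ℝ) *
    Real.exp (K0 * Real.log (Real.log ((2 * k + ρ : ℕ) : ℝ)) ^ 2) with hX
  have h0 : 0 ≤ X := by positivity
  calc |D r (fun k => f (2 * k + ρ)) k| ≤ K * X ^ r := h1
    _ ≤ |K| * X ^ r := mul_le_mul_of_nonneg_right (le_abs_self _) (pow_nonneg h0 _)
    _ ≤ |K| * ((k : ℝ) ^ (-a)) ^ r := by
        refine mul_le_mul_of_nonneg_left (pow_le_pow_left₀ h0 (h2.trans ?_) r) (abs_nonneg _)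
        exact Real.rpow_le_rpow_of_nonpos (by linarith) hkn (by linarith)
    _ = |K| * (k : ℝ) ^ (-(a * r)) := by
        rw [← Real.rpow_natCast, ← Real.rpow_mul (by linarith)]
        congr 2; ring

/-- **Main theorem**, step two. -/
theorem main_two {κ : ℝ} (hκ : κ ≤ 1) {f : ℕ → ℝ} (ρ : ℕ) (hf : Reg κ (fun k => f (2 * k + ρ)))
    {g : ℕ → ℝ} (hg : Reg κ (fun k => g (2 * k + ρ)))
    (M α : ℝ) (hM : 0 ≤ M) (hα0 : 0 ≤ α) (hα : α < κ) (v : ℕ → ℕ) (hv : Tendsto v atTop atTop)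
    (hgap : ∀ᶠ j in atTop, (v (j + 1) : ℝ) ≤ v j + (v j : ℝ) ^ α)
    (hval : ∃ C : ℝ, ∀ᶠ j in atTop, |f (2 * v j + ρ) - g (2 * v j + ρ)| ≤ C * (v j : ℝ) ^ (-M))
    (s : ℕ) (b : ℝ) (hb0 : 0 ≤ b) (hb : b < κ) :
    ∃ C : ℝ, ∀ᶠ k : ℕ in atTop, |D2 s (fun n => f n - g n) (2 * k + ρ)| ≤
      C * (k : ℝ) ^ (-(M + b * s)) := by
  have h := sparse (hf.sub hg) hκ hM hα0 hα v hv hgap hval s b hb0 hb
  obtain ⟨C, hC⟩ := h
  refine ⟨C, ?_⟩
  filter_upwards [hC] with k hk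
  rwa [D2_eq]

theorem reg_G2 (κ : ℝ) (hκ : κ ≤ 1) (ρ q : ℕ) (β : ℝ) (c θ : Fin q → ℝ) (hθ : ∀ i, 0 ≤ θ i) :
    Reg κ (fun k => (fun n : ℕ => G q β c θ n) (2 * k + ρ)) := by
  have h := (reg_G ρ q β c θ hθ).mono hκ
  refine cast ?_ h
  congr 1
  funext k
  push_cast
  rfl

end Pool.Agent.N226.SX
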