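import Pool.Agent.N226.SX.Little

/-!
# Expansions from sparse lengths: sequences with step one
-/

set_option autoImplicit false

namespace Pool.Agent.N226.SX

open Finset Filter Topology

theorem bd_G1 (q : ℕ) (β : ℝ) (c θ : Fin q → ℝ) (hθ : ∀ i, 0 ≤ θ i) (r : ℕ) (hr : 1 ≤ r) :
    Bd (fun k : ℕ => G q β c θ k) r r := by
  obtain ⟨r, rfl⟩ : ∃ r', r = r' + 1 := ⟨r - 1, by omega⟩
  have hlog : Bd (fun k : ℕ => β * Real.log k) (r + 1) ((r + 1 : ℕ) : ℝ) := by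
    refine Bd.smul β ?_
    obtain ⟨C, hC, h⟩ := DR_log r
    refine ⟨C, ?_⟩
    filter_upwards [eventually_ge_atTop 1] with n hn
    have hn1 : (1 : ℝ) ≤ n := by exact_mod_cast hn
    have e1 : D (r + 1) (fun k : ℕ => Real.log k) n
        = D (r + 1) (fun k : ℕ => Real.log (0 + (k : ℝ))) n :=
      D_congr _ _ _ _ fun i _ => by rw [zero_add]
    rw [e1, DR_eq, zero_add]
    refine (h _ hn1).trans (le_of_eq ?_)
    push_cast; rfl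
  have hpow : Bd (fun k : ℕ => ∑ i, c i * (k : ℝ) ^ (-(θ i))) (r + 1) ((r + 1 : ℕ) : ℝ) := by
    refine Bd.sum Finset.univ fun i _ => Bd.smul (c i) ?_
    obtain ⟨C, hC, h⟩ := DR_rpow (r + 1) (-(θ i))
    refine ⟨C, ?_⟩
    filter_upwards [eventually_ge_atTop 1] with n hn
    have hn1 : (1 : ℝ) ≤ n := by exact_mod_cast hn
    have e1 : D (r + 1) (fun k : ℕ => (k : ℝ) ^ (-(θ i))) n
        = D (r + 1) (fun k : ℕ => (0 + (k : ℝ)) ^ (-(θ i))) n :=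
      D_congr _ _ _ _ fun j _ => by rw [zero_add]
    rw [e1, DR_eq r.succ (fun y => y ^ (-(θ i))), zero_add]
    refine (h _ hn1).trans (mul_le_mul_of_nonneg_left ?_ hC)
    exact Real.rpow_le_rpow_of_exponent_le hn1 (by linarith [hθ i])
  exact hlog.add hpow

theorem reg_G1 (κ : ℝ) (hκ : κ ≤ 1) (q : ℕ) (β : ℝ) (c θ : Fin q → ℝ) (hθ : ∀ i, 0 ≤ θ i) :
    Reg κ (fun k : ℕ => G q β c θ k) := by
  intro a h0 h1 r hr
  refine (bd_G1 q β c θ hθ r hr).mono ?_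
  have : (0 : ℝ) ≤ r := by positivity
  nlinarith

/-- **Main theorem**, step one. -/
theorem main_one {κ : ℝ} (hκ : κ ≤ 1) {f : ℕ → ℝ} (hf : Reg κ f) {g : ℕ → ℝ} (hg : Reg κ g)
    (M α : ℝ) (hM : 0 ≤ M) (hα0 : 0 ≤ α) (hα : α < κ) (v : ℕ → ℕ) (hv : Tendsto v atTop atTop)
    (hgap : ∀ᶠ j in atTop, (v (j + 1) : ℝ) ≤ v j + (v j : ℝ) ^ α)
    (hval : ∃ C : ℝ, ∀ᶠ j in atTop, |f (v j) - g (v j)| ≤ C * (v j : ℝ) ^ (-M))
    (s : ℕ) (b : ℝ) (hb0 : 0 ≤ b) (hb : b < κ) :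
    ∃ C : ℝ, ∀ᶠ k : ℕ in atTop, |D s (fun n => f n - g n) k| ≤ C * (k : ℝ) ^ (-(M + b * s)) :=
  sparse (hf.sub hg) hκ hM hα0 hα v hv hgap hval s b hb0 hb

theorem main_one_little {κ : ℝ} (hκ : κ ≤ 1) {f : ℕ → ℝ} (hf : Reg κ f) {g : ℕ → ℝ}
    (hg : Reg κ g)
    (M α : ℝ) (hM : 0 ≤ M) (hα0 : 0 ≤ α) (hα : α < κ) (v : ℕ → ℕ) (hv : Tendsto v atTop atTop)
    (hgap : ∀ᶠ j in atTop, (v (j + 1) : ℝ) ≤ v j + (v j : ℝ) ^ α)
    (hval : Tendsto (fun j => (v j : ℝ) ^ M * (f (v j) - g (v j))) atTop (𝓝 0)) :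
    Tendsto (fun k : ℕ => (k : ℝ) ^ M * (f k - g k)) atTop (𝓝 0) :=
  sparse_little (hf.sub hg) hκ hM hα0 hα v hv hgap hval

end Pool.Agent.N226.SX
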